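import Pool.Agent.S9.M.Aab

/-!
# S9, M block: the dual cochain of a function of the cubes with values in a module

`z` is a function of the cubes of the cover with values in a module `N` over the field of two elements; `aN Ψ z` is the
dual cochain on the manifold.
-/

set_option autoImplicit false
set_option linter.unusedSectionVars false

open Finset Pointwise

namespace Pool.Agent.S9.M

open Pool.Agent.H19.Cub Pool.Agent.H77.SX Pool.Agent.H37.TM

variable {V X U Γ N N' : Type} [DecidableEq V] [DecidableEq U] [Group Γ] [MulAction Γ U]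
  {Q : CubeComplex V X} {x₀ : X} [MulAction Γ (Q.Cover x₀)] {bit : X → V → ZMod 2}
  [AddCommGroup N] [Module (ZMod 2) N] [AddCommGroup N'] [Module (ZMod 2) N']
  {M B : Set (Finset U)} {n : ℕ} {ht : U → ℕ}

/-- the cycles of degree `d` of the cover with values in `N` (functions of the pairs of a vertex and of the type of a
cube) -/
structure CycN [Fintype V] (Q : CubeComplex V X) (x₀ : X) (d : ℕ) (z : Q.Cover x₀ × Finset V → N) :
    Prop where
  valid : ∀ e, z e ≠ 0 → e.2 ⊆ Q.lab (Q.proj x₀ e.1) ∧ Q.graph.IsClique (e.2 : Set V) ∧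
    e.2.card = d
  nb : ∀ c σ, σ ⊆ Q.lab (Q.proj x₀ c) → ∀ v ∈ σ, z (Q.nbc x₀ v c, σ) = z (c, σ)
  bd : ∀ c κ, ∑ v ∈ κᶜ, z (c, insert v κ) = 0

theorem CycN.map [Fintype V] {d : ℕ} {z : Q.Cover x₀ × Finset V → N} (hz : CycN Q x₀ d z)
    (φ : N →+ N') : CycN Q x₀ d (fun e => φ (z e)) where
  valid e h := hz.valid e fun h0 => h (by rw [h0, map_zero])
  nb c σ hσ v hv := by
    show φ (z (Q.nbc x₀ v c, σ)) = φ (z (c, σ))
    rw [hz.nb c σ hσ v hv]
  bd c κ := by
    rw [← map_sum, hz.bd c κ, map_zero]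

/-- an additive map is linear over the field of two elements -/
theorem map_smul_two (φ : N →+ N') (a : ZMod 2) (y : N) : φ (a • y) = a • φ y := by
  rcases (by decide : ∀ a : ZMod 2, a = 0 ∨ a = 1) a with rfl | rfl
  · rw [zero_smul, zero_smul, map_zero]
  · rw [one_smul, one_smul]

open Classical in
/-- the dual cochain on the manifold -/
noncomputable def aN (Q : CubeComplex V X) (x₀ : X) (bit : X → V → ZMod 2) (d : ℕ)
    (Ψ : Q.Cover x₀ × Finset V → (Finset U × Finset U →₀ ZMod 2))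
    (z : Q.Cover x₀ × Finset V → N) (τ : Finset U) : N :=
  ∑ᶠ e : Q.Cover x₀ × Finset V, if e ∈ Cell Q x₀ bit d then al (Ψ e) τ • z e else 0

/-- for the values in a field it is `aab` -/
theorem aN_eq_aab {K : Type} [Field K] [Algebra (ZMod 2) K] (d : ℕ)
    (Ψ : Q.Cover x₀ × Finset V → (Finset U × Finset U →₀ ZMod 2))
    (z : Q.Cover x₀ × Finset V → K) : aN Q x₀ bit d Ψ z = aab Q x₀ bit d Ψ z := rfl

theorem aN_ne_zero {d : ℕ} {Ψ : Q.Cover x₀ × Finset V → (Finset U × Finset U →₀ ZMod 2)}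
    (z : Q.Cover x₀ × Finset V → N) (τ : Finset U)
    (h : aN Q x₀ bit d Ψ z τ ≠ 0) : ∃ e ∈ Cell Q x₀ bit d, al (Ψ e) τ ≠ 0 := by
  classical
  by_contra hno
  push Not at hno
  apply h
  unfold aN
  refine finsum_eq_zero_of_forall_eq_zero fun e => ?_
  by_cases hc : e ∈ Cell Q x₀ bit d
  · rw [if_pos hc, hno e hc, zero_smul]
  · rw [if_neg hc]

theorem aN_empty (d : ℕ) (Ψ : Q.Cover x₀ × Finset V → (Finset U × Finset U →₀ ZMod 2))
    (z : Q.Cover x₀ × Finset V → N) : aN Q x₀ bit d Ψ z ∅ = 0 := by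
  unfold aN
  refine finsum_eq_zero_of_forall_eq_zero fun e => ?_
  unfold al
  rw [sum_empty, zero_smul, ite_self]

/-- the value as a finite sum -/
theorem aN_eq {d : ℕ} {Ψ : Q.Cover x₀ × Finset V → (Finset U × Finset U →₀ ZMod 2)}
    (z : Q.Cover x₀ × Finset V → N) {τ : Finset U} {S : Finset (Q.Cover x₀ × Finset V)}
    (hS : ∀ e, e ∈ S ↔ e ∈ Cell Q x₀ bit d ∧ al (Ψ e) τ ≠ 0) :
    aN Q x₀ bit d Ψ z τ = ∑ e ∈ S, al (Ψ e) τ • z e := by
  classical
  unfold aN
  rw [finsum_eq_sum_of_support_subset (s := S)]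
  · exact sum_congr rfl fun e he => if_pos ((hS e).1 he).1
  · intro e he
    rw [Function.mem_support] at he
    by_cases hc : e ∈ Cell Q x₀ bit d
    · rw [if_pos hc] at he
      exact mem_coe.2 ((hS e).2 ⟨hc, fun h0 => he (by rw [h0, zero_smul])⟩)
    · rw [if_neg hc] at he
      exact absurd rfl he

section Act

variable [Fintype V] [Fintype X] {d : ℕ} (hΓ : IsDeck Γ Q x₀) (hM : Psm M B n)
  (hA : MAct Γ M B n ht) {Ψ : Q.Cover x₀ × Finset V → (Finset U × Finset U →₀ ZMod 2)}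
  (hΨ : IsPsi Γ Q x₀ bit M B n Ψ)

include hΓ hM hA hΨ

/-- the dual cochain commutes with additive maps of the values -/
theorem aN_map (φ : N →+ N') (z : Q.Cover x₀ × Finset V → N) (τ : Finset U) :
    aN Q x₀ bit d Ψ (fun e => φ (z e)) τ = φ (aN Q x₀ bit d Ψ z τ) := by
  classical
  have hcol := (al_fin (d := d) hΓ hM hA hΨ).2.2.1
  have hS : ∀ e, e ∈ (hcol τ).toFinset ↔ e ∈ Cell Q x₀ bit d ∧ al (Ψ e) τ ≠ 0 := fun e => by
    rw [Set.Finite.mem_toFinset]
    rfl
  rw [aN_eq _ hS, aN_eq _ hS, map_sum]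
  exact sum_congr rfl fun e _ => (map_smul_two φ _ _).symm

/-- the dual cochain of a sum -/
theorem aN_add (z z' : Q.Cover x₀ × Finset V → N) (τ : Finset U) :
    aN Q x₀ bit d Ψ (fun e => z e + z' e) τ =
      aN Q x₀ bit d Ψ z τ + aN Q x₀ bit d Ψ z' τ := by
  classical
  have hcol := (al_fin (d := d) hΓ hM hA hΨ).2.2.1
  have hS : ∀ e, e ∈ (hcol τ).toFinset ↔ e ∈ Cell Q x₀ bit d ∧ al (Ψ e) τ ≠ 0 := fun e => by
    rw [Set.Finite.mem_toFinset]
    rfl
  rw [aN_eq _ hS, aN_eq _ hS, aN_eq _ hS, ← sum_add_distrib]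
  exact sum_congr rfl fun e _ => smul_add _ _ _

/-- the dual cochain of the translate -/
theorem aN_smul {z : Q.Cover x₀ × Finset V → N} {γ : Γ} (φ : N →+ N)
    (hz : ∀ e, z (γ • e) = φ (z e)) (τ : Finset U) :
    aN Q x₀ bit d Ψ z (γ • τ) = φ (aN Q x₀ bit d Ψ z τ) := by
  classical
  have heq := (al_fin (d := d) hΓ hM hA hΨ).2.2.2
  have h1 : aN Q x₀ bit d Ψ z (γ • τ) = aN Q x₀ bit d Ψ (fun e => φ (z e)) τ := by
    unfold aN
    rw [← finsum_comp_equiv (MulAction.toPerm γ)]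
    refine finsum_congr fun e => ?_
    rw [MulAction.toPerm_apply]
    by_cases hc : e ∈ Cell Q x₀ bit d
    · rw [if_pos ((cell_smul hΓ γ e).2 hc), if_pos hc, heq γ e hc, hz]
    · rw [if_neg (fun h => hc ((cell_smul hΓ γ e).1 h)), if_neg hc]
  rw [h1, aN_map hΓ hM hA hΨ φ z τ]

/-- the support of the dual cochain -/
theorem aN_rel (z : Q.Cover x₀ × Finset V → N) (τ : Finset U)
    (h : aN Q x₀ bit d Ψ z τ ≠ 0) : τ ∈ M ∧ τ ∉ B ∧ τ.card + d = n + 1 := by
  classical
  obtain ⟨hal1, -, -, -⟩ := al_fin (d := d) hΓ hM hA hΨ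
  obtain ⟨e, he, h1⟩ := aN_ne_zero z τ h
  exact hal1 e he τ h1

/-- the dual cochain of a cycle is a cocycle -/
theorem aN_cob (hbit : IsBit Q bit) {z : Q.Cover x₀ × Finset V → N} (hz : CycN Q x₀ (d + 1) z)
    {τ : Finset U} (hτ : τ ∈ M) : ∑ v ∈ τ, aN Q x₀ bit (d + 1) Ψ z (τ.erase v) = 0 := by
  classical
  obtain ⟨-, -, hcol, -⟩ := al_fin (d := d + 1) hΓ hM hA hΨ
  obtain ⟨-, -, hcol', -⟩ := al_fin (d := d) hΓ hM hA hΨ
  have hco := sum_cofaces (x₀ := x₀) (d := d) hbit z hz.valid hz.nb hz.bd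
  set BS : Finset (Q.Cover x₀ × Finset V) := (hcol' τ).toFinset with hBS
  -- first step: one finite sum over the cubes
  have h1 : ∑ v ∈ τ, aN Q x₀ bit (d + 1) Ψ z (τ.erase v) =
      ∑ᶠ e : Q.Cover x₀ × Finset V, ∑ v ∈ τ,
        (if e ∈ Cell Q x₀ bit (d + 1) then al (Ψ e) (τ.erase v) • z e
          else 0) := by
    rw [finsum_sum_comm]
    · unfold aN
      refine sum_congr rfl fun v _ => finsum_congr fun e => ?_
      split_ifs <;> rfl
    · intro v _
      refine (hcol (τ.erase v)).subset fun e he => ?_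
      rw [Function.mem_support] at he
      by_cases hc : e ∈ Cell Q x₀ bit (d + 1)
      · rw [if_pos hc] at he
        exact ⟨hc, fun h0 => he (by rw [h0, zero_smul])⟩
      · rw [if_neg hc] at he
        exact absurd rfl he
  have h2 : ∀ e : Q.Cover x₀ × Finset V, (∑ v ∈ τ,
        (if e ∈ Cell Q x₀ bit (d + 1) then al (Ψ e) (τ.erase v) • z e
          else 0)) = ∑ b ∈ BS, al (Ψ b) τ •
        (if e ∈ Cell Q x₀ bit (d + 1) then bdD Q x₀ e b • z e else 0) := by
    intro e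
    by_cases hc : e ∈ Cell Q x₀ bit (d + 1)
    · simp only [if_pos hc]
      have h3 : ∑ v ∈ τ, al (Ψ e) (τ.erase v) = ∑ b ∈ BS, al (Ψ b) τ * bdD Q x₀ e b := by
        have h4 : cob (al (Ψ e)) τ = al (bdT M n (Ψ e)) τ := (al_bdT hM (hΨ.mem _ e hc) hτ).symm
        have h5 := hΨ.bd _ e hc
        rw [if_neg (Nat.succ_ne_zero d), zero_add] at h5
        show cob (al (Ψ e)) τ = _
        rw [h4, h5, al_lin]
        have h6 : (bdD Q x₀ e).sum (fun a c => c * al (Ψ a) τ) =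
            ∑ b ∈ (bdD Q x₀ e).support ∪ BS, bdD Q x₀ e b * al (Ψ b) τ := by
          refine sum_subset subset_union_left fun b _ hb => ?_
          show bdD Q x₀ e b * al (Ψ b) τ = 0
          rw [Finsupp.notMem_support_iff.1 hb, zero_mul]
        rw [h6]
        symm
        refine (sum_subset subset_union_right fun b _ hb => ?_).trans
          (sum_congr rfl fun b _ => mul_comm _ _)
        by_cases h7 : bdD Q x₀ e b = 0
        · rw [h7, mul_zero]
        · have h8 := bdD_cell hbit hc b h7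
          have h9 : al (Ψ b) τ = 0 := by
            by_contra h10
            exact hb ((Set.Finite.mem_toFinset _).2 ⟨h8, h10⟩)
          rw [h9, zero_mul]
      rw [← Finset.sum_smul, h3, Finset.sum_smul]
      exact sum_congr rfl fun b _ => mul_smul _ _ _
    · simp only [if_neg hc, sum_const_zero, smul_zero]
  rw [h1, finsum_congr h2, finsum_sum_comm]
  · refine sum_eq_zero fun b hb => ?_
    obtain ⟨hb1, hb2⟩ := (Set.Finite.mem_toFinset _).1 hb
    obtain ⟨hf1, hf2⟩ := hco b hb1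
    have h10 : ∑ᶠ e : Q.Cover x₀ × Finset V, al (Ψ b) τ •
        (if e ∈ Cell Q x₀ bit (d + 1) then bdD Q x₀ e b • z e else 0) =
        al (Ψ b) τ • ∑ᶠ e : Q.Cover x₀ × Finset V,
        (if e ∈ Cell Q x₀ bit (d + 1) then bdD Q x₀ e b • z e else 0) := by
      rcases (by decide : ∀ a : ZMod 2, a = 0 ∨ a = 1) (al (Ψ b) τ) with h | h
      · rw [h]
        simp only [zero_smul, finsum_zero]
      · rw [h]
        simp only [one_smul]
    rw [h10]
    have h11 : ∑ᶠ e : Q.Cover x₀ × Finset V,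
        (if e ∈ Cell Q x₀ bit (d + 1) then bdD Q x₀ e b • z e else 0) = 0 := by
      refine Eq.trans (finsum_congr fun e => ?_) hf2
      split_ifs <;> rfl
    rw [h11, smul_zero]
  · intro b hb
    obtain ⟨hb1, hb2⟩ := (Set.Finite.mem_toFinset _).1 hb
    refine (hco b hb1).1.subset fun e he => ?_
    rw [Function.mem_support] at he
    by_cases hc : e ∈ Cell Q x₀ bit (d + 1)
    · rw [if_pos hc] at he
      exact ⟨hc, fun h0 => he (by rw [h0, zero_smul, smul_zero])⟩
    · rw [if_neg hc, smul_zero] at he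
      exact absurd rfl he

/-- finitely many orbits of simplices of the support, for all `z` at once -/
theorem aN_fin (d : ℕ) : ∃ S : Finset (Finset U), ∀ (N : Type) (_ : AddCommGroup N)
    (_ : Module (ZMod 2) N) (z : Q.Cover x₀ × Finset V → N) (τ : Finset U),
    aN Q x₀ bit d Ψ z τ ≠ 0 → ∃ γ : Γ, γ • τ ∈ S := by
  classical
  obtain ⟨hal1, hal2, -, hal4⟩ := al_fin (d := d) hΓ hM hA hΨ
  obtain ⟨S, hS⟩ := cu_fin (x₀ := x₀) hΓ
  refine ⟨S.biUnion fun e => (hal2 e).toFinset, fun N _ _ z τ h => ?_⟩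
  obtain ⟨e, he, h11⟩ := aN_ne_zero z τ h
  obtain ⟨γ, hγ⟩ := hS e
  refine ⟨γ, mem_biUnion.2 ⟨γ • e, hγ, ?_⟩⟩
  rw [Set.Finite.mem_toFinset]
  show al (Ψ (γ • e)) (γ • τ) ≠ 0
  rwa [hal4 γ e he]

end Act

end Pool.Agent.S9.M
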