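import Pool.Agent.S9.M.Aab

/-!
# S9, M block: the comparison of the sum over the cubes and of the sum over the top simplices
-/

set_option autoImplicit false
set_option linter.unusedSectionVars false

open Finset Pointwise

namespace Pool.Agent.S9.M

open Pool.Agent.H19.Cub Pool.Agent.H77.SX Pool.Agent.H37.TM Pool.Agent.H37.MA

variable {V X U Γ K : Type} [DecidableEq V] [DecidableEq U] [Group Γ] [MulAction Γ U]
  {Q : CubeComplex V X} {x₀ : X} [MulAction Γ (Q.Cover x₀)] {bit : X → V → ZMod 2}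
  [Field K] [Algebra (ZMod 2) K] {M B : Set (Finset U)} {n : ℕ} {ht : U → ℕ}

/-- `X` is a cocycle on the tuples and `z` a function of the cubes, their translates have inverse factors -/
structure Wt (Γ : Type) [Group Γ] (Q : CubeComplex V X) (x₀ : X) [MulAction Γ (Q.Cover x₀)]
    (c : Γ → K) (W : List (Q.Cover x₀) → K) (z : Q.Cover x₀ × Finset V → K) : Prop where
  cyc : ∀ x : List (Q.Cover x₀) →₀ ZMod 2, lin W (BL x) = 0
  smul : ∀ (γ : Γ) (L : List (Q.Cover x₀)), W (L.map (γ • ·)) * c γ ^ 2 = W L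
  z_smul : ∀ (γ : Γ) (e : Q.Cover x₀ × Finset V), z (γ • e) = c γ * z e

theorem Wt.lin_smul {c : Γ → K} {W : List (Q.Cover x₀) → K} {z : Q.Cover x₀ × Finset V → K}
    (hW : Wt Γ Q x₀ c W z) (γ : Γ) (x : List (Q.Cover x₀) →₀ ZMod 2) :
    lin W (x.mapDomain (List.map (γ • ·))) * c γ ^ 2 = lin W x := by
  rw [lin_map]
  have h1 : lin W x = lin (fun L => c γ ^ 2 * W (L.map (γ • ·))) x := by
    congr 1
    exact congrArg lin (funext fun L => by rw [mul_comm, hW.smul])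
  rw [h1, mul_comm]
  unfold lin
  rw [Finsupp.linearCombination_apply, Finsupp.linearCombination_apply, Finsupp.mul_sum]
  exact Finsupp.sum_congr fun a _ => mul_smul_comm _ _ _

/-- **The comparison.** -/
theorem cmpb [Fintype V] [Fintype X] [CharP K 2] {d : ℕ} (hbit : IsBit Q bit)
    (hΓ : IsDeck Γ Q x₀) {c : Γ → K} {W : List (Q.Cover x₀) → K}
    {z : Q.Cover x₀ × Finset V → K} (hz : Cyc Q x₀ (d + 1) z) (hW : Wt Γ Q x₀ c W z)
    {F H : Q.Cover x₀ × Finset V → (List (Q.Cover x₀) →₀ ZMod 2)}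
    (hH : ∀ i, ∀ γ : Γ, ∀ e ∈ Cell Q x₀ bit i,
      H (γ • e) = (H e).mapDomain (List.map (γ • ·)))
    (hF : ∀ i, ∀ e ∈ Cell Q x₀ bit i, BL (H e) = F e + lin H (bdD Q x₀ e)) :
    osum Γ (fun e : Q.Cover x₀ × Finset V => open Classical in
      if e ∈ Cell Q x₀ bit (d + 1) then lin W (F e) * z e ^ 2 else 0) = 0 := by
  classical
  -- the value at `F e`
  have hbe : ∀ e ∈ Cell Q x₀ bit (d + 1), lin W (F e) =
      ∑ b ∈ (bdD Q x₀ e).support, bdD Q x₀ e b • lin W (H b) := by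
    intro e he
    rw [← fun_lin]
    have h1 : lin W (BL (H e)) = 0 := hW.cyc _
    rw [hF _ e he, map_add] at h1
    have h2 := add_self_K (lin W (lin H (bdD Q x₀ e)))
    have h3 : lin W (F e) + lin W (lin H (bdD Q x₀ e)) = 0 := h1
    have h4 := h3.trans h2.symm
    exact add_right_cancel h4
  set k : Q.Cover x₀ × Finset V → Q.Cover x₀ × Finset V → K := fun e b =>
    if e ∈ Cell Q x₀ bit (d + 1) then bdD Q x₀ e b • (lin W (H b) * z e ^ 2) else 0 with hk
  have hk0 : ∀ e b, k e b ≠ 0 → e ∈ Cell Q x₀ bit (d + 1) ∧ bdD Q x₀ e b ≠ 0 := by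
    intro e b h
    by_cases he : e ∈ Cell Q x₀ bit (d + 1)
    · refine ⟨he, fun h0 => h ?_⟩
      simp only [hk, if_pos he, h0, zero_smul]
    · exact absurd (by simp only [hk, if_neg he]) h
  have hrow : ∀ e, (if e ∈ Cell Q x₀ bit (d + 1) then lin W (F e) * z e ^ 2 else 0) =
      ∑ᶠ b, k e b := by
    intro e
    rw [finsum_eq_sum_of_support_subset (s := (bdD Q x₀ e).support) (k e) (fun b hb => by
      rw [mem_coe, Finsupp.mem_support_iff]
      exact (hk0 e b hb).2)]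
    by_cases he : e ∈ Cell Q x₀ bit (d + 1)
    · simp only [hk, if_pos he]
      rw [hbe e he, sum_mul]
      exact sum_congr rfl fun b _ => smul_mul_assoc _ _ _
    · simp only [hk, if_neg he, sum_const_zero]
  have hinv : ∀ (γ : Γ) e b, k (γ • e) (γ • b) = k e b := by
    intro γ e b
    by_cases he : e ∈ Cell Q x₀ bit (d + 1)
    · have he' : γ • e ∈ Cell Q x₀ bit (d + 1) := (cell_smul hΓ γ e).2 he
      simp only [hk, if_pos he, if_pos he']
      rw [bdD_smul_apply hΓ he]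
      by_cases hb : bdD Q x₀ e b = 0
      · rw [hb, zero_smul, zero_smul]
      · have hb' := bdD_cell hbit he b hb
        congr 1
        rw [hH d γ b hb', hW.z_smul, ← hW.lin_smul γ (H b)]
        ring
    · have he' : γ • e ∉ Cell Q x₀ bit (d + 1) := fun h => he ((cell_smul hΓ γ e).1 h)
      simp only [hk, if_neg he, if_neg he']
  have h1 : osum Γ (fun e => ∑ᶠ b, k e b) = osum Γ fun b => ∑ᶠ e, k e b := by
    refine osum_comm k hinv (fun e b _ γ h => cu_free hΓ e γ h) (fun e b _ γ h => cu_free hΓ b γ h)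
      (fun e => ?_) ?_
    · exact (bdD Q x₀ e).support.finite_toSet.subset fun b hb => by
        rw [mem_coe, Finsupp.mem_support_iff]
        exact (hk0 e b hb).2
    · obtain ⟨S, hS⟩ := cu_fin (Q := Q) (x₀ := x₀) hΓ
      exact ⟨S, fun e _ _ => hS e⟩
  have h2 : (fun e : Q.Cover x₀ × Finset V =>
      if e ∈ Cell Q x₀ bit (d + 1) then lin W (F e) * z e ^ 2 else 0) = fun e => ∑ᶠ b, k e b :=
    funext hrow
  rw [h2, h1]
  -- the columns
  have hcol : ∀ b, ∑ᶠ e, k e b = 0 := by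
    intro b
    by_cases hb : b ∈ Cell Q x₀ bit d
    · obtain ⟨hf1, hf2⟩ := sum_cofaces hbit (fun e => z e ^ 2) hz.sq.valid hz.sq.nb hz.sq.bd b hb
      have h4 : ∀ e, k e b = lin W (H b) *
          (if e ∈ Cell Q x₀ bit (d + 1) then bdD Q x₀ e b • (z e ^ 2) else 0) := by
        intro e
        by_cases he : e ∈ Cell Q x₀ bit (d + 1)
        · simp only [hk, if_pos he]
          exact (mul_smul_comm _ _ _).symm
        · simp only [hk, if_neg he, mul_zero]
      rw [finsum_congr h4, ← mul_finsum, hf2, mul_zero]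
    · refine finsum_eq_zero_of_forall_eq_zero fun e => ?_
      by_contra h
      exact hb (bdD_cell hbit (hk0 e b h).1 b (hk0 e b h).2)
  simp only [hcol]
  unfold osum
  exact finsum_zero

open Classical in
/-- the kernel of the double sum -/
noncomputable def srb (Q : CubeComplex V X) (x₀ : X) (bit : X → V → ZMod 2) (d n : ℕ)
    (M : Set (Finset U)) (ht : U → ℕ)
    (Ψ : Q.Cover x₀ × Finset V → (Finset U × Finset U →₀ ZMod 2)) (f : U → Q.Cover x₀)
    (z : Q.Cover x₀ × Finset V → K) (W : List (Q.Cover x₀) → K) (e : Q.Cover x₀ × Finset V)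
    (T : Finset U) : K :=
  if e ∈ Cell Q x₀ bit d ∧ T ∈ M ∧ T.card = n + 1 then
    W ((frontL ht T d).map f) * (al (Ψ e) (T.filter fun u => d ≤ ht u) • z e ^ 2)
  else 0

theorem srb_smul [Fintype V] [Fintype X] {d : ℕ}
    (hΓ : IsDeck Γ Q x₀) (hM : Psm M B n) (hA : MAct Γ M B n ht)
    {Ψ : Q.Cover x₀ × Finset V → (Finset U × Finset U →₀ ZMod 2)}
    (hΨ : IsPsi Γ Q x₀ bit M B n Ψ) {f : U → Q.Cover x₀} (hf : IsVMap Γ f)
    {c : Γ → K} {W : List (Q.Cover x₀) → K} {z : Q.Cover x₀ × Finset V → K}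
    (hW : Wt Γ Q x₀ c W z) (γ : Γ) (e : Q.Cover x₀ × Finset V) (T : Finset U) :
    srb Q x₀ bit d n M ht Ψ f z W (γ • e) (γ • T) = srb Q x₀ bit d n M ht Ψ f z W e T := by
  classical
  have hTM : γ • T ∈ M ↔ T ∈ M :=
    ⟨fun h => by simpa using hA.K_mem γ⁻¹ _ h, fun h => hA.K_mem γ T h⟩
  unfold srb
  rw [cell_smul hΓ, hTM, card_smul_finset]
  split_ifs with h
  · obtain ⟨he, hT, hc⟩ := h
    rw [filter_smul' hA.ht_smul, (al_fin (d := d) hΓ hM hA hΨ).2.2.2 γ e he,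
      frontL_smul hA.ht_smul γ (hA.ht_inj T hT)]
    have hm : ((frontL ht T d).map (γ • ·)).map f = ((frontL ht T d).map f).map (γ • ·) := by
      rw [List.map_map, List.map_map]
      exact List.map_congr_left fun u _ => hf γ u
    rw [hm, hW.z_smul, ← hW.smul γ ((frontL ht T d).map f), mul_pow, mul_smul_comm, mul_smul_comm]
    congr 1
    ring
  · rfl

theorem srb_row {d : ℕ}
    {Ψ : Q.Cover x₀ × Finset V → (Finset U × Finset U →₀ ZMod 2)} (f : U → Q.Cover x₀)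
    (z : Q.Cover x₀ × Finset V → K) (W : List (Q.Cover x₀) → K) (e : Q.Cover x₀ × Finset V)
    (T : Finset U) (h : srb Q x₀ bit d n M ht Ψ f z W e T ≠ 0) :
    e ∈ Cell Q x₀ bit d ∧ T ∈ M ∧ T.card = n + 1 ∧
      al (Ψ e) (T.filter fun u => d ≤ ht u) ≠ 0 := by
  classical
  unfold srb at h
  by_cases h1 : e ∈ Cell Q x₀ bit d ∧ T ∈ M ∧ T.card = n + 1
  · refine ⟨h1.1, h1.2.1, h1.2.2, fun h2 => ?_⟩
    rw [if_pos h1] at h
    refine h ?_
    rw [h2, zero_smul, mul_zero]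
  · exact absurd (if_neg h1) h

/-- the sum over the rows -/
theorem srb_sum [Fintype V] [Fintype X] {d : ℕ}
    (hΓ : IsDeck Γ Q x₀) (hM : Psm M B n) (hA : MAct Γ M B n ht)
    {Ψ : Q.Cover x₀ × Finset V → (Finset U × Finset U →₀ ZMod 2)}
    (hΨ : IsPsi Γ Q x₀ bit M B n Ψ) (f : U → Q.Cover x₀)
    (z : Q.Cover x₀ × Finset V → K) (W : List (Q.Cover x₀) → K) (hd : d ≤ n + 1)
    {e : Q.Cover x₀ × Finset V} (he : e ∈ Cell Q x₀ bit d) :
    lin W (Phi M n ht f (Ψ e)) * z e ^ 2 =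
      ∑ᶠ T, srb Q x₀ bit d n M ht Ψ f z W e T := by
  classical
  obtain ⟨hf1, -, -, -⟩ := al_fin (d := d) hΓ hM hA hΨ
  set S : Finset (Finset U) := (Ψ e).support.image Prod.snd with hS
  have hSmem : ∀ e', Ψ e e' ≠ 0 → e'.2 ∈ S := fun e' h =>
    mem_image.2 ⟨e', Finsupp.mem_support_iff.2 h, rfl⟩
  have hSal : ∀ τ, al (Ψ e) τ ≠ 0 → τ ∈ S := fun τ h => by
    obtain ⟨v, _, h1⟩ := exists_ne_zero_of_sum_ne_zero h
    exact hSmem _ h1
  set C : Finset U → Finset (Finset U) := fun τ =>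
    if (∀ u ∈ τ, d ≤ ht u) ∧ τ ∈ M ∧ τ.card + d = n + 1 then cofs M τ (n + 1) else ∅ with hC
  have hCmem : ∀ τ T, T ∈ C τ ↔ (∀ u ∈ τ, d ≤ ht u) ∧ τ ∈ M ∧ τ.card + d = n + 1 ∧ T ∈ M ∧
      τ ⊆ T ∧ T.card = n + 1 := by
    intro τ T
    rw [hC]
    dsimp only
    split_ifs with h
    · rw [mem_cofsP hM h.2.1]
      tauto
    · simp only [notMem_empty, false_iff]
      tauto
  have hCseg : ∀ τ T, T ∈ C τ → (T.filter fun u => d ≤ ht u) = τ := by
    intro τ T hT
    obtain ⟨h1, h2, h3, h4, h5, h6⟩ := (hCmem τ T).1 hT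
    have h7 := top_seg hA h4 h6 hd
    refine (eq_of_subset_of_card_le (fun u hu => mem_filter.2 ⟨h5 hu, h1 u hu⟩) ?_).symm
    omega
  have hsum : ∑ᶠ T, srb Q x₀ bit d n M ht Ψ f z W e T =
      ∑ τ ∈ S, ∑ T ∈ C τ, srb Q x₀ bit d n M ht Ψ f z W e T := by
    rw [← sum_biUnion (fun τ _ τ' _ hne => disjoint_left.2 fun T hT hT' =>
      hne ((hCseg τ T hT).symm.trans (hCseg τ' T hT')))]
    refine finsum_eq_sum_of_support_subset _ fun T hT => ?_
    obtain ⟨_, h2, h3, h4⟩ := srb_row f z W e T hT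
    obtain ⟨h5, _, h6⟩ := hf1 e he _ h4
    exact mem_coe.2 (mem_biUnion.2 ⟨_, hSal _ h4, (hCmem _ _).2
      ⟨fun u hu => (mem_filter.1 hu).2, h5, h6, h2, filter_subset _ _, h3⟩⟩)
  have hbe : lin W (Phi M n ht f (Ψ e)) =
      ∑ τ ∈ S, al (Ψ e) τ • lin ((fun m => W (m.map f))) (lamT M n ht τ) := by
    unfold Phi
    rw [lin_map, ← lam_eval (hΨ.mem d e he) _ hSmem]
  rw [hsum, hbe, sum_mul]
  refine sum_congr rfl fun τ _ => ?_
  by_cases h0 : al (Ψ e) τ = 0
  · rw [h0, zero_smul, zero_mul]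
    refine (sum_eq_zero fun T hT => ?_).symm
    by_contra h1
    have h2 := (srb_row f z W e T h1).2.2.2
    rw [hCseg τ T hT] at h2
    exact h2 h0
  · obtain ⟨h1, _, h2⟩ := hf1 e he τ h0
    have h3 : ∀ T ∈ C τ, srb Q x₀ bit d n M ht Ψ f z W e T =
        W ((frontL ht T d).map f) * (al (Ψ e) τ • z e ^ 2) := by
      intro T hT
      obtain ⟨_, _, _, h4, _, h5⟩ := (hCmem τ T).1 hT
      unfold srb
      rw [if_pos ⟨he, h4, h5⟩, hCseg τ T hT]
    rw [sum_congr rfl h3, ← sum_mul, lamT_eval h2]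
    by_cases h4 : ∀ u ∈ τ, d ≤ ht u
    · have h5 : C τ = cofs M τ (n + 1) := by
        rw [hC]
        exact if_pos ⟨h4, h1, h2⟩
      rw [if_pos h4, h5, smul_mul_assoc, mul_smul_comm]
    · have h5 : C τ = ∅ := by
        rw [hC]
        exact if_neg fun h => h4 h.1
      rw [if_neg h4, h5, sum_empty, smul_zero, zero_mul, zero_mul]

/-- The right side. -/
theorem rightb [Fintype V] [Fintype X] [CharP K 2] {d : ℕ} (hΓ : IsDeck Γ Q x₀) (hM : Psm M B n)
    (hA : MAct Γ M B n ht) {Ψ : Q.Cover x₀ × Finset V → (Finset U × Finset U →₀ ZMod 2)}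
    (hΨ : IsPsi Γ Q x₀ bit M B n Ψ) {f : U → Q.Cover x₀} (hf : IsVMap Γ f)
    {c : Γ → K} {W : List (Q.Cover x₀) → K} {z : Q.Cover x₀ × Finset V → K}
    (hW : Wt Γ Q x₀ c W z) (hd : d ≤ n + 1) :
    osum Γ (fun e : Q.Cover x₀ × Finset V => open Classical in
      if e ∈ Cell Q x₀ bit d then lin W (Phi M n ht f (Ψ e)) * z e ^ 2 else 0) =
    osum Γ (fun τ : Finset U => open Classical in
      if τ ∈ M ∧ τ.card = n + 1 then
        W ((frontL ht τ d).map f) * aab Q x₀ bit d Ψ z (τ.filter fun u => d ≤ ht u) ^ 2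
      else 0) := by
  classical
  obtain ⟨hf1, -, hf3, -⟩ := al_fin (d := d) hΓ hM hA hΨ
  have h1 : (fun e : Q.Cover x₀ × Finset V =>
      if e ∈ Cell Q x₀ bit d then lin W (Phi M n ht f (Ψ e)) * z e ^ 2 else 0) =
      fun e => ∑ᶠ T, srb Q x₀ bit d n M ht Ψ f z W e T := by
    funext e
    by_cases he : e ∈ Cell Q x₀ bit d
    · rw [if_pos he, srb_sum hΓ hM hA hΨ f z W hd he]
    · rw [if_neg he]
      refine (finsum_eq_zero_of_forall_eq_zero fun T => ?_).symm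
      by_contra h
      exact he (srb_row f z W e T h).1
  have h2 : (fun τ : Finset U => if τ ∈ M ∧ τ.card = n + 1 then
        W ((frontL ht τ d).map f) * aab Q x₀ bit d Ψ z (τ.filter fun u => d ≤ ht u) ^ 2
      else 0) = fun T => ∑ᶠ e, srb Q x₀ bit d n M ht Ψ f z W e T := by
    funext T
    by_cases hT : T ∈ M ∧ T.card = n + 1
    · rw [if_pos hT]
      set τ := T.filter fun u => d ≤ ht u with hτ
      set E := (hf3 τ).toFinset with hE
      have hEm : ∀ e, e ∈ E ↔ e ∈ Cell Q x₀ bit d ∧ al (Ψ e) τ ≠ 0 := fun e => by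
        rw [hE, Set.Finite.mem_toFinset]
        rfl
      have h3 : ∑ᶠ e, srb Q x₀ bit d n M ht Ψ f z W e T =
          ∑ e ∈ E, srb Q x₀ bit d n M ht Ψ f z W e T := by
        refine finsum_eq_sum_of_support_subset _ fun e he => ?_
        obtain ⟨h4, _, _, h5⟩ := srb_row f z W e T he
        exact mem_coe.2 ((hEm e).2 ⟨h4, h5⟩)
      have h4 : ∀ e ∈ E, srb Q x₀ bit d n M ht Ψ f z W e T =
          W ((frontL ht T d).map f) * (al (Ψ e) τ • z e ^ 2) := fun e he => by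
        unfold srb
        rw [if_pos ⟨((hEm e).1 he).1, hT⟩]
      rw [h3, sum_congr rfl h4, aab_eq z hEm, sq_sum_two, mul_sum]
    · rw [if_neg hT]
      refine (finsum_eq_zero_of_forall_eq_zero fun e => ?_).symm
      by_contra h
      obtain ⟨_, h4, h5, _⟩ := srb_row f z W e T h
      exact hT ⟨h4, h5⟩
  have h3 := osum_comm (Γ := Γ) (fun (e : Q.Cover x₀ × Finset V) (T : Finset U) =>
    srb Q x₀ bit d n M ht Ψ f z W e T)
    (fun γ e T => srb_smul hΓ hM hA hΨ hf hW γ e T)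
    (fun e T _ γ hγ => cu_free hΓ e γ hγ)
    (fun e T h γ hγ => hA.free γ T (srb_row f z W e T h).2.1 hγ)
    (fun e => by
      refine (Set.Finite.biUnion ((Ψ e).support.image Prod.snd).finite_toSet
        (t := fun τ => {T | τ ∈ M ∧ T ∈ M ∧ τ ⊆ T}) fun τ _ => ?_).subset fun T hT => ?_
      · by_cases h5 : τ ∈ M
        · exact (hM.locfin τ h5).subset fun T hT => ⟨hT.2.1, hT.2.2⟩
        · exact Set.finite_empty.subset fun T hT => h5 hT.1
      · obtain ⟨h5, h6, _, h7⟩ := srb_row f z W e T hT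
        obtain ⟨v, _, h8⟩ := exists_ne_zero_of_sum_ne_zero h7
        exact Set.mem_biUnion (mem_coe.2 (mem_image.2 ⟨_, Finsupp.mem_support_iff.2 h8, rfl⟩))
          ⟨(hf1 e h5 _ h7).1, h6, filter_subset _ _⟩)
    (by
      obtain ⟨F, hF⟩ := cu_fin (Γ := Γ) (Q := Q) (x₀ := x₀) hΓ
      exact ⟨F, fun e _ _ => hF e⟩)
  rw [h1, h2]
  exact h3

/-- The sum over the cubes is the sum over the top simplices. -/
theorem topb [Fintype V] [Fintype X] [CharP K 2] {d : ℕ} (hbit : IsBit Q bit)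
    (hΓ : IsDeck Γ Q x₀) (hM : Psm M B n)
    (hA : MAct Γ M B n ht) {f : U → Q.Cover x₀} (hf : IsVMap Γ f)
    {Ψ : Q.Cover x₀ × Finset V → (Finset U × Finset U →₀ ZMod 2)}
    (hΨ : IsPsi Γ Q x₀ bit M B n Ψ) {c : Γ → K} {W : List (Q.Cover x₀) → K}
    {z : Q.Cover x₀ × Finset V → K} (hz : Cyc Q x₀ (d + 1) z) (hW : Wt Γ Q x₀ c W z)
    (hd : d + 1 ≤ n + 1) :
    osum Γ (fun e : Q.Cover x₀ × Finset V => open Classical in
      if e ∈ Cell Q x₀ bit (d + 1) then lin W (TT Q x₀ e) * z e ^ 2 else 0) =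
    osum Γ (fun τ : Finset U => open Classical in
      if τ ∈ M ∧ τ.card = n + 1 then
        W ((frontL ht τ (d + 1)).map f) *
          aab Q x₀ bit (d + 1) Ψ z (τ.filter fun u => d + 1 ≤ ht u) ^ 2
      else 0) := by
  classical
  obtain ⟨H, hH1, hH2⟩ := exists_homotopy hbit hΓ hM hA hΨ hf
  have h1 := cmpb hbit hΓ hz hW (F := fun e => TT Q x₀ e + Phi M n ht f (Ψ e)) hH1 hH2
  obtain ⟨S, hS⟩ := cu_fin (x₀ := x₀) hΓ
  rw [← rightb hΓ hM hA hΨ hf hW hd]
  have h3 := osum_add (Γ := Γ)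
    (fun e : Q.Cover x₀ × Finset V => open Classical in
      if e ∈ Cell Q x₀ bit (d + 1) then lin W (TT Q x₀ e) * z e ^ 2 else 0)
    (fun e : Q.Cover x₀ × Finset V => open Classical in
      if e ∈ Cell Q x₀ bit (d + 1) then lin W (Phi M n ht f (Ψ e)) * z e ^ 2 else 0)
      ⟨S, fun e _ => hS e⟩ ⟨S, fun e _ => hS e⟩
  have h4 := h3.symm.trans (Eq.trans (by
    congr 1
    funext e
    by_cases hc : e ∈ Cell Q x₀ bit (d + 1)
    · rw [if_pos hc, if_pos hc, if_pos hc, map_add, add_mul]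
    · rw [if_neg hc, if_neg hc, if_neg hc, add_zero]) h1)
  have h5 := add_self_K (osum Γ (fun e : Q.Cover x₀ × Finset V => open Classical in
      if e ∈ Cell Q x₀ bit (d + 1) then lin W (Phi M n ht f (Ψ e)) * z e ^ 2 else 0))
  exact add_right_cancel (h4.trans h5.symm)

end Pool.Agent.S9.M
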