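import Pool.Agent.H37.TM.Inv

/-!
# S9, M block: the cochain `VT` is linear in every letter

A letter `c` enters `VT ht a hp q l` through the cochains `a A`, `c ∈ A`, and through the potential `hp c`.
-/

set_option autoImplicit false
set_option linter.unusedSectionVars false

open Finset

namespace Pool.Agent.S9.M

open Pool.Agent.H37.TM

variable {U S R : Type} [DecidableEq U] [DecidableEq S] [CommRing R] {ht : U → ℕ}

theorem cup_lin_left {j : ℕ} {x x' x'' y : Finset U → R} {lam : R}
    (h : ∀ t, x'' t = x t + lam * x' t) (s : Finset U) :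
    cup ht j x'' y s = cup ht j x y s + lam * cup ht j x' y s := by
  unfold cup
  rw [mul_sum, ← sum_add_distrib]
  exact sum_congr rfl fun B _ => by rw [h]; ring

theorem cup_lin_right {j : ℕ} {x y y' y'' : Finset U → R} {lam : R}
    (h : ∀ t, y'' t = y t + lam * y' t) (s : Finset U) :
    cup ht j x y'' s = cup ht j x y s + lam * cup ht j x y' s := by
  unfold cup
  rw [mul_sum, ← sum_add_distrib]
  exact sum_congr rfl fun B _ => by rw [h]; ring

theorem hmin_lin {h h' h'' : U → R} {lam : R} (hh : ∀ u, h'' u = h u + lam * h' u)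
    (s : Finset U) : hmin ht h'' s = hmin ht h s + lam * hmin ht h' s := by
  unfold hmin
  rw [mul_sum, ← sum_add_distrib]
  exact sum_congr rfl fun u _ => hh u

theorem dcup_lin_left {h h' h'' : U → R} {w : Finset U → R} {lam : R}
    (hh : ∀ u, h'' u = h u + lam * h' u) (s : Finset U) :
    dcup ht h'' w s = dcup ht h w s + lam * dcup ht h' w s := by
  unfold dcup
  rw [mul_sum, ← sum_add_distrib]
  exact sum_congr rfl fun u _ => by rw [hh, hmin_lin hh]; ring

theorem dcup_lin_right {h : U → R} {w w' w'' : Finset U → R} {lam : R} (s : Finset U)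
    (hw : ∀ t ⊆ s, w'' t = w t + lam * w' t) :
    dcup ht h w'' s = dcup ht h w s + lam * dcup ht h w' s := by
  unfold dcup
  rw [mul_sum, ← sum_add_distrib]
  exact sum_congr rfl fun u _ => by rw [hw _ (erase_subset _ _)]; ring

/-- only the letters of the list matter -/
theorem VT_congr' {a a' : Finset S → Finset U → R} {hp hp' : S → U → R} {q : ℕ} :
    ∀ (l : List S), (∀ A, A ⊆ l.toFinset → a A = a' A) → (∀ b ∈ l, hp b = hp' b) →
    ∀ s : Finset U, VT ht a hp q l s = VT ht a' hp' q l s
  | [], _, _, _ => rfl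
  | b :: l, ha, hh, s => by
    have hsub : l.toFinset ⊆ (b :: l).toFinset := by
      rw [List.toFinset_cons]
      exact subset_insert _ _
    have hins : ∀ A, A ⊆ l.toFinset → insert b A ⊆ (b :: l).toFinset := fun A hA => by
      rw [List.toFinset_cons]
      exact insert_subset_insert b hA
    show (if l.length < q then VV ht a (hp b) b l.toFinset (q - l.length) s else 0) +
      dcup ht (hp b) (VT ht a hp q l) s =
      (if l.length < q then VV ht a' (hp' b) b l.toFinset (q - l.length) s else 0) +
      dcup ht (hp' b) (VT ht a' hp' q l) s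
    have h1 : VV ht a (hp b) b l.toFinset (q - l.length) s =
        VV ht a' (hp' b) b l.toFinset (q - l.length) s := by
      unfold VV
      refine sum_congr rfl fun A hA => ?_
      have hA' := mem_powerset.1 hA
      rw [ha _ (hins A hA'), ha _ (hA'.trans hsub), ha _ (sdiff_subset.trans hsub),
        hh b List.mem_cons_self]
    have h2 : VT ht a hp q l = VT ht a' hp' q l := funext fun t =>
      VT_congr' l (fun A hA => ha A (hA.trans hsub)) (fun c hc => hh c (List.mem_cons_of_mem _ hc)) t
    rw [h1, h2, hh b List.mem_cons_self]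

/-- the letter `c` enters linearly: the data of the three families -/
structure LinAt (c : S) (L : Finset S) (lam : R) (a a' a'' : Finset S → Finset U → R)
    (hp hp' hp'' : S → U → R) : Prop where
  a1 : ∀ A, A ⊆ L → c ∉ A → a'' A = a A ∧ a' A = a A
  a2 : ∀ A, A ⊆ L → c ∈ A → ∀ t, a'' A t = a A t + lam * a' A t
  h1 : ∀ b ∈ L, b ≠ c → hp'' b = hp b ∧ hp' b = hp b
  h2 : ∀ u, hp'' c u = hp c u + lam * hp' c u

theorem LinAt.mono {c : S} {L L' : Finset S} {lam : R} {a a' a'' : Finset S → Finset U → R}
    {hp hp' hp'' : S → U → R} (h : LinAt c L lam a a' a'' hp hp' hp'') (hL : L' ⊆ L) :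
    LinAt c L' lam a a' a'' hp hp' hp'' :=
  ⟨fun A hA => h.a1 A (hA.trans hL), fun A hA => h.a2 A (hA.trans hL), fun b hb => h.h1 b (hL hb),
    h.h2⟩

/-- `VV` is linear in the letter `b` -/
theorem VV_lin_self {b : S} {ρ : Finset S} (hb : b ∉ ρ) {lam : R}
    {a a' a'' : Finset S → Finset U → R} {hp hp' hp'' : S → U → R}
    (h : LinAt b (insert b ρ) lam a a' a'' hp hp' hp'') (j : ℕ) (s : Finset U) :
    VV ht a'' (hp'' b) b ρ j s = VV ht a (hp b) b ρ j s + lam * VV ht a' (hp' b) b ρ j s := by
  unfold VV
  rw [mul_sum, ← sum_add_distrib]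
  refine sum_congr rfl fun A hA => ?_
  have hA' := mem_powerset.1 hA
  have hbA : b ∉ A := fun hb' => hb (hA' hb')
  have hbA' : b ∉ ρ \ A := fun hb' => hb (sdiff_subset hb')
  obtain ⟨e1, e2⟩ := h.a1 A (hA'.trans (subset_insert _ _)) hbA
  obtain ⟨e3, e4⟩ := h.a1 (ρ \ A) (sdiff_subset.trans (subset_insert _ _)) hbA'
  have e5 := h.a2 (insert b A) (insert_subset_insert b hA') (mem_insert_self _ _)
  rw [e1, e2, e3, e4, cup_lin_left e5, hmin_lin h.h2]
  ring

/-- `VV` is linear in the letters of `ρ` -/
theorem VV_lin_of_mem {b c : S} {ρ : Finset S} (hb : b ∉ ρ) (hc : c ∈ ρ) {lam : R}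
    {a a' a'' : Finset S → Finset U → R} {hp hp' hp'' : S → U → R}
    (h : LinAt c (insert b ρ) lam a a' a'' hp hp' hp'') (j : ℕ) (s : Finset U) :
    VV ht a'' (hp'' b) b ρ j s = VV ht a (hp b) b ρ j s + lam * VV ht a' (hp' b) b ρ j s := by
  have hbc : b ≠ c := fun h0 => hb (h0 ▸ hc)
  obtain ⟨f1, f2⟩ := h.h1 b (mem_insert_self _ _) hbc
  unfold VV
  rw [mul_sum, ← sum_add_distrib, f1, f2]
  refine sum_congr rfl fun A hA => ?_
  have hA' := mem_powerset.1 hA
  have s1 : A ⊆ insert b ρ := hA'.trans (subset_insert _ _)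
  have s2 : ρ \ A ⊆ insert b ρ := sdiff_subset.trans (subset_insert _ _)
  have s3 : insert b A ⊆ insert b ρ := insert_subset_insert b hA'
  by_cases hcA : c ∈ A
  · have hn : c ∉ ρ \ A := fun h0 => (mem_sdiff.1 h0).2 hcA
    obtain ⟨e3, e4⟩ := h.a1 (ρ \ A) s2 hn
    rw [e3, e4, cup_lin_left (h.a2 _ s3 (mem_insert_of_mem hcA)), cup_lin_left (h.a2 _ s1 hcA)]
    ring
  · have hn : c ∈ ρ \ A := mem_sdiff.2 ⟨hc, hcA⟩
    have hn' : c ∉ insert b A := fun h0 => by
      rcases mem_insert.1 h0 with h0 | h0
      · exact hbc h0.symm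
      · exact hcA h0
    obtain ⟨e1, e2⟩ := h.a1 A s1 hcA
    obtain ⟨e3, e4⟩ := h.a1 (insert b A) s3 hn'
    rw [e1, e2, e3, e4, cup_lin_right (h.a2 _ s2 hn), cup_lin_right (h.a2 _ s2 hn)]
    ring

/-- **`VT` is linear in every letter.** -/
theorem VT_lin {c : S} {lam : R} {a a' a'' : Finset S → Finset U → R}
    {hp hp' hp'' : S → U → R} {q : ℕ} : ∀ (l : List S), l.Nodup → c ∈ l →
    LinAt c l.toFinset lam a a' a'' hp hp' hp'' → ∀ s : Finset U,
    VT ht a'' hp'' q l s = VT ht a hp q l s + lam * VT ht a' hp' q l s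
  | [], _, hc, _, _ => absurd hc List.not_mem_nil
  | b :: l, hl, hc, h, s => by
    obtain ⟨hbl, hl'⟩ := List.nodup_cons.1 hl
    have hb : b ∉ l.toFinset := fun h0 => hbl (List.mem_toFinset.1 h0)
    have hi : (b :: l).toFinset = insert b l.toFinset := List.toFinset_cons
    rw [hi] at h
    show (if l.length < q then VV ht a'' (hp'' b) b l.toFinset (q - l.length) s else 0) +
      dcup ht (hp'' b) (VT ht a'' hp'' q l) s =
      ((if l.length < q then VV ht a (hp b) b l.toFinset (q - l.length) s else 0) +
      dcup ht (hp b) (VT ht a hp q l) s) +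
      lam * ((if l.length < q then VV ht a' (hp' b) b l.toFinset (q - l.length) s else 0) +
      dcup ht (hp' b) (VT ht a' hp' q l) s)
    rcases eq_or_ne c b with hcb | hcb
    · subst hcb
      have h1 := VV_lin_self (ht := ht) hb h (q - l.length) s
      have hc1 : ∀ A, A ⊆ l.toFinset → c ∉ A := fun A hA h0 => hb (hA h0)
      have h2 : VT ht a'' hp'' q l = VT ht a hp q l := funext fun t =>
        VT_congr' l (fun A hA => (h.a1 A (hA.trans (subset_insert _ _)) (hc1 A hA)).1)
          (fun d hd => (h.h1 d (mem_insert_of_mem (List.mem_toFinset.2 hd))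
            fun h0 => hbl (h0 ▸ hd)).1) t
      have h3 : VT ht a' hp' q l = VT ht a hp q l := funext fun t =>
        VT_congr' l (fun A hA => (h.a1 A (hA.trans (subset_insert _ _)) (hc1 A hA)).2)
          (fun d hd => (h.h1 d (mem_insert_of_mem (List.mem_toFinset.2 hd))
            fun h0 => hbl (h0 ▸ hd)).2) t
      rw [h2, h3, dcup_lin_left h.h2, h1]
      split_ifs <;> ring
    · have hcl : c ∈ l := (List.mem_cons.1 hc).resolve_left hcb
      have h1 := VV_lin_of_mem (ht := ht) hb (List.mem_toFinset.2 hcl) h (q - l.length) s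
      obtain ⟨f1, f2⟩ := h.h1 b (mem_insert_self _ _) (Ne.symm hcb)
      have h2 := dcup_lin_right (ht := ht) (h := hp b) s fun t _ =>
        VT_lin (q := q) l hl' hcl (h.mono (subset_insert _ _)) t
      rw [h1, f1, f2, h2]
      split_ifs <;> ring

/-! ### constants -/

theorem hmin_one {h : U → R} (hh : ∀ u, h u = 1) {s : Finset U} (hs : Set.InjOn ht (s : Set U))
    (hne : s.Nonempty) : hmin ht h s = 1 := by
  obtain ⟨v, hv, hm⟩ := exists_low ht hne
  unfold hmin
  rw [lows_eq hs hv hm, sum_singleton, hh]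

/-- **`VT` vanishes if the letter `c` is the constant one.** -/
theorem VT_one [CharP R 2] {c : S} {a : Finset S → Finset U → R} {hp : S → U → R} {q : ℕ}
    (hpc : ∀ u, hp c u = 1) : ∀ (l : List S), l.Nodup → c ∈ l →
    (∀ A, A ⊆ l.toFinset → c ∉ A → a (insert c A) = a A) → ∀ s : Finset U,
    Set.InjOn ht (s : Set U) → VT ht a hp q l s = 0
  | [], _, hc, _, _, _ => absurd hc List.not_mem_nil
  | b :: l, hl, hc, h, s, hs => by
    rcases s.eq_empty_or_nonempty with rfl | hne
    · exact VT_empty _
    obtain ⟨hbl, hl'⟩ := List.nodup_cons.1 hl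
    have hb : b ∉ l.toFinset := fun h0 => hbl (List.mem_toFinset.1 h0)
    have hi : (b :: l).toFinset = insert b l.toFinset := List.toFinset_cons
    rw [hi] at h
    show (if l.length < q then VV ht a (hp b) b l.toFinset (q - l.length) s else 0) +
      dcup ht (hp b) (VT ht a hp q l) s = 0
    rcases eq_or_ne c b with hcb | hcb
    · subst hcb
      have h1 : VV ht a (hp c) c l.toFinset (q - l.length) s = 0 := by
        unfold VV
        refine sum_eq_zero fun A hA => ?_
        have hA' := mem_powerset.1 hA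
        rw [h A (hA'.trans (subset_insert _ _)) (fun h0 => hb (hA' h0)), hmin_one hpc hs hne,
          one_mul, add_self_two]
      have h2 : dcup ht (hp c) (VT ht a hp q l) s = 0 := by
        unfold dcup
        refine sum_eq_zero fun v _ => ?_
        rcases (s.erase v).eq_empty_or_nonempty with h0 | h0
        · rw [h0, VT_empty, mul_zero]
        · rw [hmin_one hpc (hs.mono (by exact_mod_cast erase_subset v s)) h0, hpc, add_self_two,
            zero_mul]
      rw [h1, h2, add_zero]
      split_ifs <;> rfl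
    · have hcl : c ∈ l := (List.mem_cons.1 hc).resolve_left hcb
      have h1 : VV ht a (hp b) b l.toFinset (q - l.length) s = 0 := by
        obtain ⟨ρ, hρ, hcρ⟩ : ∃ ρ, c ∉ ρ ∧ insert c ρ = l.toFinset :=
          ⟨l.toFinset.erase c, notMem_erase _ _, insert_erase (List.mem_toFinset.2 hcl)⟩
        unfold VV
        rw [← hcρ, sum_powerset_insert hρ, ← sum_add_distrib]
        refine sum_eq_zero fun A hA => ?_
        have hA' : A ⊆ ρ := mem_powerset.1 hA
        have hcA : c ∉ A := fun h0 => hρ (hA' h0)
        have hρl : ρ ⊆ insert b l.toFinset := by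
          rw [← hcρ]
          exact (subset_insert c ρ).trans (subset_insert _ _)
        have e1 : insert c ρ \ A = insert c (ρ \ A) := insert_sdiff_of_notMem ρ hcA
        have e2 : insert c ρ \ insert c A = ρ \ A := by
          ext u
          simp only [mem_sdiff, mem_insert, not_or]
          constructor
          · rintro ⟨h3 | h3, h4, h5⟩
            · exact absurd h3 h4
            · exact ⟨h3, h5⟩
          · rintro ⟨h3, h5⟩
            exact ⟨Or.inr h3, fun h6 => hρ (h6 ▸ h3), h5⟩
        have e3 : insert b (insert c A) = insert c (insert b A) := Finset.insert_comm b c A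
        have hnb : c ∉ insert b A := fun h0 => by
          rcases mem_insert.1 h0 with h0 | h0
          · exact hcb h0
          · exact hcA h0
        have hsub : insert b A ⊆ insert b l.toFinset := by
          refine insert_subset_insert b (hA'.trans ?_)
          rw [← hcρ]
          exact subset_insert c ρ
        rw [e1, e2, e3, h _ hsub hnb, h A (hA'.trans hρl) hcA,
          h (ρ \ A) (sdiff_subset.trans hρl) (fun h0 => hρ (sdiff_subset h0))]
        exact add_self_two _
      have h2 : dcup ht (hp b) (VT ht a hp q l) s = 0 := by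
        unfold dcup
        refine sum_eq_zero fun v _ => ?_
        rw [VT_one hpc l hl' hcl (fun A hA => h A (hA.trans (subset_insert _ _))) _
          (hs.mono (by exact_mod_cast erase_subset v s)), mul_zero]
      rw [h1, h2, add_zero]
      split_ifs <;> rfl

end Pool.Agent.S9.M
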