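import Pool.Agent.S9.M.Zero
import Pool.Agent.H37.TM.SdE

/-!
# S9, M block: the relation for actions on homology manifolds

`rel_m`: Let the deck group `Γ` of the cover of the special cube complex `Q` act freely and simplicially on the
acyclic homology manifold `M` of dimension `n`, `i + q = n + 1`, `1 ≤ q ≤ i`. Let `z` be a cycle of degree `i` with
values in the multilinear functionals (`i` arguments) on the space `F` of functions of the vertices, equivariant with
the factor `c`, and `z₀ = z (1, …, 1)`. Then the pairing of `z₀ ^ 2` and of the cocycle `∑ y k • d f_(k,1) ∪ … ∪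
d f_(k,i)` vanishes, if the tensor `∑ y k • ⨂ f_(k,s)` is invariant with the factor `c ^ (-2)` modulo constants.
-/

set_option autoImplicit false
set_option linter.unusedSectionVars false

open Finset Pointwise

namespace Pool.Agent.S9.M

open Pool.Agent.H19.Cub Pool.Agent.H77.SX Pool.Agent.H37.TM Pool.Agent.H37.MA

section bet

variable {S D K : Type} [DecidableEq S] [Field K] [Algebra (ZMod 2) K]

theorem bet_congr' {h h' : S → D → K} : ∀ (l : List S) (L : List D), (∀ b ∈ l, h b = h' b) →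
    bet h l L = bet h' l L
  | [], [], _ => by rw [bet_nil_nil, bet_nil_nil]
  | [], [x], _ => by rw [bet_nil_one, bet_nil_one]
  | [], x :: y :: m, _ => by rw [bet_nil_two, bet_nil_two]
  | b :: l, [], _ => by rw [bet_cons_nil, bet_cons_nil]
  | b :: l, [x], _ => by rw [bet_cons_one, bet_cons_one]
  | b :: l, x :: y :: m, hh => by
    rw [bet_cons_two, bet_cons_two, hh b List.mem_cons_self,
      bet_congr' l (y :: m) fun c hc => hh c (List.mem_cons_of_mem _ hc)]

/-- the product is linear in every letter -/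
theorem bet_lin {h h' h'' : S → D → K} {c : S} {lam : K} (h1 : ∀ b, b ≠ c → h'' b = h b ∧ h' b = h b)
    (h2 : ∀ u, h'' c u = h c u + lam * h' c u) : ∀ (l : List S) (L : List D), l.Nodup → c ∈ l →
    bet h'' l L = bet h l L + lam * bet h' l L
  | [], _, _, hc => absurd hc List.not_mem_nil
  | b :: l, [], _, _ => by
    rw [bet_cons_nil, bet_cons_nil, bet_cons_nil, mul_zero, add_zero]
  | b :: l, [x], _, _ => by
    rw [bet_cons_one, bet_cons_one, bet_cons_one, mul_zero, add_zero]
  | b :: l, x :: y :: m, hl, hc => by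
    obtain ⟨hbl, hl'⟩ := List.nodup_cons.1 hl
    rw [bet_cons_two, bet_cons_two, bet_cons_two]
    rcases eq_or_ne c b with hcb | hcb
    · subst hcb
      rw [bet_congr' (h := h'') (h' := h) l _ fun d hd => (h1 d fun h0 => hbl (h0 ▸ hd)).1,
        bet_congr' (h := h') (h' := h) l _ fun d hd => (h1 d fun h0 => hbl (h0 ▸ hd)).2, h2, h2]
      ring
    · have hcl : c ∈ l := (List.mem_cons.1 hc).resolve_left hcb
      obtain ⟨f1, f2⟩ := h1 b (Ne.symm hcb)
      rw [bet_lin h1 h2 l (y :: m) hl' hcl, f1, f2]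
      ring

/-- the product vanishes if a letter is the constant one -/
theorem bet_one [CharP K 2] {h : S → D → K} {c : S} (hc1 : ∀ u, h c u = 1) :
    ∀ (l : List S) (L : List D), c ∈ l → bet h l L = 0
  | [], _, hc => absurd hc List.not_mem_nil
  | b :: l, [], _ => bet_cons_nil h b l
  | b :: l, [x], _ => bet_cons_one h b l x
  | b :: l, x :: y :: m, hc => by
    rw [bet_cons_two]
    rcases List.mem_cons.1 hc with hcb | hcl
    · subst hcb
      rw [hc1, hc1, CharTwo.add_self_eq_zero, zero_mul]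
    · rw [bet_one hc1 l (y :: m) hcl, mul_zero]

end bet

variable {V X U Γ K F ι κ : Type} [DecidableEq V] [DecidableEq U] [Group Γ] [MulAction Γ U]
  {Q : CubeComplex V X} {x₀ : X} [MulAction Γ (Q.Cover x₀)] {bit : X → V → ZMod 2}
  [Field K] [Algebra (ZMod 2) K] {M B : Set (Finset U)} {n : ℕ} {ht : U → ℕ}
  [AddCommGroup F] [Module K F] [dι : DecidableEq ι] [Fintype κ]

/-- the product of the letters at a tuple, as a multilinear functional -/
noncomputable def betm (C : CoF Γ K Q x₀ F) {l : List ι} (hl : l.Nodup) (hall : ∀ i, i ∈ l)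
    (L : List (Q.Cover x₀)) : MultilinearMap K (fun _ : ι => F) K where
  toFun f := bet (fun s v => C.ev v (f s)) l L
  map_update_add' := by
    intro inst f i x x'
    have he : inst = dι := Subsingleton.elim _ _
    subst he
    have h := bet_lin (h := fun s v => C.ev v (Function.update f i x s))
      (h' := fun s v => C.ev v (Function.update f i x' s))
      (h'' := fun s v => C.ev v (Function.update f i (x + x') s)) (c := i) (lam := 1)
      (fun b hb => by
        simp only [Function.update_of_ne hb]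
        exact ⟨trivial, trivial⟩)
      (fun u => by
        simp only [Function.update_self]
        rw [map_add, one_mul]) l L hl (hall i)
    rw [one_mul] at h
    exact h
  map_update_smul' := by
    intro inst f i c x
    have he : inst = dι := Subsingleton.elim _ _
    subst he
    have h0 := bet_lin (h := fun s v => C.ev v (Function.update f i 0 s))
      (h' := fun s v => C.ev v (Function.update f i 0 s))
      (h'' := fun s v => C.ev v (Function.update f i 0 s)) (c := i) (lam := 1)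
      (fun b hb => ⟨rfl, rfl⟩)
      (fun u => by
        simp only [Function.update_self]
        rw [map_zero, mul_zero, add_zero]) l L hl (hall i)
    rw [one_mul] at h0
    have h1 : bet (fun s v => C.ev v (Function.update f i 0 s)) l L = 0 := left_eq_add.1 h0
    have h := bet_lin (h := fun s v => C.ev v (Function.update f i 0 s))
      (h' := fun s v => C.ev v (Function.update f i x s))
      (h'' := fun s v => C.ev v (Function.update f i (c • x) s)) (c := i) (lam := c)
      (fun b hb => by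
        simp only [Function.update_of_ne hb]
        exact ⟨trivial, trivial⟩)
      (fun u => by
        simp only [Function.update_self]
        rw [map_zero, zero_add, map_smul, smul_eq_mul]) l L hl (hall i)
    rw [h1, zero_add] at h
    exact h

/-- the cocycle on the tuples -/
noncomputable def Wy (C : CoF Γ K Q x₀ F) (y : κ → K) (fs : κ → ι → F) (l : List ι)
    (L : List (Q.Cover x₀)) : K := ∑ k, y k * bet (fun s v => C.ev v (fs k s)) l L

theorem lin_Wy (C : CoF Γ K Q x₀ F) (y : κ → K) (fs : κ → ι → F) (l : List ι)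
    (x : List (Q.Cover x₀) →₀ ZMod 2) :
    lin (Wy C y fs l) x = ∑ k, y k * lin (bet (fun s v => C.ev v (fs k s)) l) x := by
  unfold lin Wy
  simp only [Finsupp.linearCombination_apply]
  unfold Finsupp.sum
  simp only [smul_sum, mul_sum]
  rw [sum_comm]
  exact sum_congr rfl fun k _ => sum_congr rfl fun L _ => (mul_smul_comm _ _ _).symm

/-- the weight of the cocycle and of the square of the cycle -/
theorem wt_Wy [Fintype V] [CharP K 2] (C : CoF Γ K Q x₀ F) {c : Γ → K} {d : ℕ}
    {z : Q.Cover x₀ × Finset V → MultilinearMap K (fun _ : ι => F) K} (hz : MCyc C c d z)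
    {y : κ → K} {fs : κ → ι → F} (hy : YInv C c y fs) {l : List ι} (hl : l.Nodup)
    (hall : ∀ i, i ∈ l) : Wt Γ Q x₀ c (Wy C y fs l) (fun e => z e fun _ => C.one) where
  cyc x := by
    rw [lin_Wy]
    refine sum_eq_zero fun k _ => ?_
    rw [lin_bet_BL, mul_zero]
  smul γ L := by
    have h := hy γ (betm C hl hall L) (fun f i hi => bet_one (c := i) (fun u => by
      rw [hi, C.ev_one]) l L (hall i))
    unfold Wy
    refine Eq.trans ?_ h
    congr 1
    refine sum_congr rfl fun k _ => ?_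
    rw [bet_map' _ (γ • ·)]
    congr 2
    funext s v
    exact C.ev_smul γ v (fs k s)
  z_smul γ e := by
    show z (γ • e) (fun _ => C.one) = c γ * z e fun _ => C.one
    rw [hz.smul]
    simp only [C.rho_one]

/-- The relation from a pseudomanifold with a height and a map to its complex of pairs. -/
theorem rel_psm [Fintype V] [Fintype X] [CharP K 2] (C : CoF Γ K Q x₀ F) {c : Γ → K}
    (hbit : IsBit Q bit) (hΓ : IsDeck Γ Q x₀) (hM : Psm M B n)
    (hA : MAct Γ M B n ht) (hU : ∀ u : U, {u} ∈ M)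
    {Ψ : Q.Cover x₀ × Finset V → (Finset U × Finset U →₀ ZMod 2)}
    (hΨ : IsPsi Γ Q x₀ bit M B n Ψ) {i q : ℕ} (hq0 : 1 ≤ q) (hqi : q ≤ i) (hi : i + q = n + 1)
    {z : Q.Cover x₀ × Finset V → MultilinearMap K (fun _ : ι => F) K} (hz : MCyc C c i z)
    {y : κ → K} {fs : κ → ι → F} (hy : YInv C c y fs)
    {l : List ι} (hn : l.Nodup) (hall : ∀ i, i ∈ l) (hl : l.length = i) :
    osum Γ (fun e : Q.Cover x₀ × Finset V => open Classical in
      if e ∈ Cell Q x₀ bit i then
        lin (Wy C y fs l) (TT Q x₀ e) * (z e fun _ => C.one) ^ 2 else 0) = 0 := by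
  classical
  obtain ⟨d, rfl⟩ : ∃ d', i = d' + 1 := ⟨i - 1, by omega⟩
  obtain ⟨fv, hf⟩ := exists_vmap (Q := Q) (x₀ := x₀) hA.sact hU
  have hW := wt_Wy C hz hy hn hall
  rw [topb hbit hΓ hM hA hf hΨ (hz.cyc fun _ => C.one) hW (by omega)]
  refine Eq.trans ?_ (zerob C hbit hΓ hM hA hΨ hf hz hy hn hall hl (q := q) (by omega) hqi)
  congr 1
  funext τ
  by_cases hτ : τ ∈ M ∧ τ.card = n + 1
  · rw [if_pos hτ, if_pos hτ]
    unfold Wy
    rw [sum_mul]
    refine sum_congr rfl fun k _ => ?_
    have h := WW_top (hA.ht_inj τ hτ.1) (hA.ht_le τ hτ.1) hτ.2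
      (amf C bit (d + 1) Ψ z (fs k)) (hmf C fv (fs k)) (q := q) (by omega) l (by omega)
    rw [h, hl, bet_map', mul_assoc]
    have h1 : amf C bit (d + 1) Ψ z (fs k) ∅ (τ.filter fun u => d + 1 ≤ ht u) =
        aab Q x₀ bit (d + 1) Ψ (fun e => z e fun _ => C.one) (τ.filter fun u => d + 1 ≤ ht u) := by
      unfold amf
      simp only [notMem_empty, if_false]
    rw [h1]
    rfl
  · rw [if_neg hτ, if_neg hτ]

/-- **The relation.** No height is needed: the relation is applied to the flags of `M`. -/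
theorem rel_m [Fintype V] [Fintype X] [CharP K 2] (C : CoF Γ K Q x₀ F) {c : Γ → K}
    (hbit : IsBit Q bit) (hΓ : IsDeck Γ Q x₀) (hM : Mfd M B n)
    {dd : ℕ} (hd : DimLe Q dd) (hK : AcycLt M dd) (hA : SAct Γ M B)
    {i q : ℕ} (hq0 : 1 ≤ q) (hqi : q ≤ i) (hi : i + q = n + 1)
    {z : Q.Cover x₀ × Finset V → MultilinearMap K (fun _ : ι => F) K} (hz : MCyc C c i z)
    {y : κ → K} {fs : κ → ι → F} (hy : YInv C c y fs)
    {l : List ι} (hn : l.Nodup) (hall : ∀ i, i ∈ l) (hl : l.length = i) :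
    osum Γ (fun e : Q.Cover x₀ × Finset V => open Classical in
      if e ∈ Cell Q x₀ bit i then
        lin (Wy C y fs l) (TT Q x₀ e) * (z e fun _ => C.one) ^ 2 else 0) = 0 := by
  classical
  let iact : MulAction Γ (Sx M) :=
    { smul := fun g a => ⟨g • a.1, hA.K_mem g a.1 a.2⟩
      one_smul := fun a => Subtype.ext (one_smul Γ a.1)
      mul_smul := fun g h a => Subtype.ext (mul_smul g h a.1) }
  have hact : ∀ (g : Γ) (a : Sx M), (g • a).1 = g • a.1 := fun _ _ => rfl
  obtain ⟨Ψ, hΨ⟩ := exists_psi (Γ := Γ) (x₀ := x₀) (bit := bit) hbit hΓ hd hM hK hA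
  obtain ⟨φ, hφ, hφg⟩ := exists_phi hM.psm hact hA.free
  exact rel_psm C hbit hΓ (sd_psm hM.psm)
    (sd_mact hM.psm hact hA.B_mem hA.free) sd_singleton (sd_psi hM.psm hφ hact hφg hΨ)
    hq0 hqi hi hz hy hn hall hl

/-- The orbits of the cubes are represented by the pairs `(A, x)`, the bits of `x` vanish on `A`. -/
theorem osum_cells [Fintype V] [Fintype X] (hΓ : IsDeck Γ Q x₀) {i : ℕ}
    {cl : X → Q.Cover x₀} (hcl : ∀ x, Q.proj x₀ (cl x) = x) {G : Q.Cover x₀ × Finset V → K}
    (hG : ∀ (γ : Γ) (e : Q.Cover x₀ × Finset V), G (γ • e) = G e)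
    (hG0 : ∀ e, G e ≠ 0 → e.2 ⊆ Q.lab (Q.proj x₀ e.1) ∧ Q.graph.IsClique (e.2 : Set V) ∧
      e.2.card = i) :
    osum Γ (fun e : Q.Cover x₀ × Finset V => open Classical in
      if e ∈ Cell Q x₀ bit i then G e else 0) =
      ∑ A : Finset V, ∑ x ∈ univ.filter (fun x => ∀ v ∈ A, bit x v = 0), G (cl x, A) := by
  classical
  have hcell : ∀ x A, (cl x, A) ∈ Cell Q x₀ bit i ↔ A ⊆ Q.lab x ∧ Q.graph.IsClique (A : Set V) ∧
      A.card = i ∧ ∀ v ∈ A, bit x v = 0 := by
    intro x A
    unfold Cell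
    rw [Set.mem_ofPred_eq, hcl]
  rw [osum_eq_of_reps (J := {y : Finset V × X // (cl y.2, y.1) ∈ Cell Q x₀ bit i}) _ ?_
    (fun j => (cl j.1.2, j.1.1)) ?_ ?_]
  · have h2 : ∑ A : Finset V, ∑ x ∈ univ.filter (fun x => ∀ v ∈ A, bit x v = 0), G (cl x, A) =
        ∑ y ∈ (univ : Finset (Finset V × X)).filter
          (fun y => (cl y.2, y.1) ∈ Cell Q x₀ bit i), G (cl y.2, y.1) := by
      rw [sum_sigma']
      symm
      refine sum_bij_ne_zero (fun y _ _ => ⟨y.1, y.2⟩) ?_ ?_ ?_ ?_
      · intro y hy _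
        rw [mem_filter, hcell] at hy
        exact mem_sigma.2 ⟨mem_univ _, mem_filter.2 ⟨mem_univ _, hy.2.2.2.2⟩⟩
      · intro y _ _ y' _ _ h
        have h3 := Sigma.mk.inj_iff.1 h
        exact Prod.ext h3.1 (eq_of_heq h3.2)
      · rintro ⟨A, x⟩ hy hne
        rw [mem_sigma, mem_filter] at hy
        have h4 := hG0 _ hne
        refine ⟨(A, x), ?_, hne, rfl⟩
        rw [mem_filter, hcell]
        refine ⟨mem_univ _, ?_, h4.2.1, h4.2.2, hy.2.2⟩
        have h5 := h4.1
        rwa [show Q.proj x₀ (cl x, A).1 = x from hcl x] at h5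
      · intro y _ _
        rfl
    rw [h2, sum_subtype (univ.filter fun y : Finset V × X =>
      (cl y.2, y.1) ∈ Cell Q x₀ bit i) (p := fun y =>
      (cl y.2, y.1) ∈ Cell Q x₀ bit i) (fun y => by simp)]
    exact sum_congr rfl fun j _ => if_pos j.2
  · intro γ e
    simp only [cell_smul hΓ, hG]
  · intro j j' γ h
    have h1 := congrArg Prod.fst h
    have h1' := congrArg Prod.snd h
    have h2 : Q.proj x₀ (γ • cl j.1.2) = Q.proj x₀ (cl j'.1.2) := congrArg (Q.proj x₀) h1
    rw [hΓ.proj, hcl, hcl] at h2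
    exact Subtype.ext (Prod.ext h1' h2)
  · intro e he
    have h1 : e ∈ Cell Q x₀ bit i := by
      by_contra h
      exact he (if_neg h)
    have h2 : (cl (Q.proj x₀ e.1), e.2) ∈ Cell Q x₀ bit i :=
      (hcell _ _).2 ⟨h1.1, h1.2.1, h1.2.2.1, h1.2.2.2⟩
    obtain ⟨γ, hγ⟩ := hΓ.trans e.1 (cl (Q.proj x₀ e.1)) (hcl _).symm
    refine ⟨γ, ⟨(e.2, Q.proj x₀ e.1), h2⟩, ?_⟩
    rw [cu_smul, hγ]

/-- **The relation as a finite sum.** -/
theorem rel_fin [Fintype V] [Fintype X] [CharP K 2] (C : CoF Γ K Q x₀ F) {c : Γ → K}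
    (hbit : IsBit Q bit) (hΓ : IsDeck Γ Q x₀) (hM : Mfd M B n)
    (hK : Acyc M) (hA : SAct Γ M B) {cl : X → Q.Cover x₀} (hcl : ∀ x, Q.proj x₀ (cl x) = x)
    {i q : ℕ} (hq0 : 1 ≤ q) (hqi : q ≤ i) (hi : i + q = n + 1)
    {z : Q.Cover x₀ × Finset V → MultilinearMap K (fun _ : ι => F) K} (hz : MCyc C c i z)
    {y : κ → K} {fs : κ → ι → F} (hy : YInv C c y fs)
    {l : List ι} (hn : l.Nodup) (hall : ∀ i, i ∈ l) (hl : l.length = i) :
    ∑ A : Finset V, ∑ x ∈ univ.filter (fun x => ∀ v ∈ A, bit x v = 0),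
      lin (Wy C y fs l) (TT Q x₀ (cl x, A)) * (z (cl x, A) fun _ => C.one) ^ 2 = 0 := by
  classical
  have hW := wt_Wy C hz hy hn hall
  have h1 := rel_m C hbit hΓ hM (dd := Fintype.card V) (fun _ σ _ _ => card_le_univ σ)
    (hK.lt _) hA hq0 hqi hi hz hy hn hall hl
  -- an invariant function: the value is replaced by zero outside the cells
  set G : Q.Cover x₀ × Finset V → K := fun e =>
    if e ∈ Cell Q x₀ bit i then lin (Wy C y fs l) (TT Q x₀ e) * (z e fun _ => C.one) ^ 2
      else 0 with hGdef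
  have hG : ∀ (γ : Γ) (e : Q.Cover x₀ × Finset V), G (γ • e) = G e := by
    intro γ e
    simp only [hGdef, cell_smul hΓ]
    by_cases he : e ∈ Cell Q x₀ bit i
    · rw [if_pos he, if_pos he]
      have h2 : TT Q x₀ (γ • e) = (TT Q x₀ e).mapDomain (List.map (γ • ·)) := TT_smul hΓ he γ
      have h3 : (z (γ • e) fun _ => C.one) = c γ * z e fun _ => C.one := hW.z_smul γ e
      rw [h2, h3, ← hW.lin_smul γ (TT Q x₀ e)]
      ring
    · rw [if_neg he, if_neg he]
  have hG0 : ∀ e, G e ≠ 0 → e.2 ⊆ Q.lab (Q.proj x₀ e.1) ∧ Q.graph.IsClique (e.2 : Set V) ∧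
      e.2.card = i := by
    intro e he
    by_cases hc : e ∈ Cell Q x₀ bit i
    · exact ⟨hc.1, hc.2.1, hc.2.2.1⟩
    · exact absurd (if_neg hc) he
  have h2 := osum_cells (bit := bit) hΓ hcl hG hG0
  have h3 : (fun e : Q.Cover x₀ × Finset V => open Classical in
      if e ∈ Cell Q x₀ bit i then G e else 0) = fun e : Q.Cover x₀ × Finset V =>
      if e ∈ Cell Q x₀ bit i then
        lin (Wy C y fs l) (TT Q x₀ e) * (z e fun _ => C.one) ^ 2 else 0 := by
    funext e
    simp only [hGdef]
    split_ifs <;> rfl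
  rw [h3, h1] at h2
  rw [h2]
  refine sum_congr rfl fun A _ => sum_congr rfl fun x hx => ?_
  simp only [hGdef]
  by_cases hc : (cl x, A) ∈ Cell Q x₀ bit i
  · rw [if_pos hc]
  · rw [if_neg hc]
    have h4 : (z (cl x, A) fun _ => C.one) = 0 := by
      by_contra h5
      obtain ⟨h6, h7, h8⟩ := (hz.cyc fun _ => C.one).valid (cl x, A) h5
      refine hc ⟨h6, h7, h8, fun v hv => ?_⟩
      show bit (Q.proj x₀ (cl x)) v = 0
      rw [hcl]
      exact (mem_filter.1 hx).2 v hv
    rw [h4, zero_pow two_ne_zero, mul_zero]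

end Pool.Agent.S9.M
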