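import Pool.Agent.S9.M.Cmp
import Pool.Agent.S9.M.Lin

/-!
# S9, M block: the relation on the manifold

The coefficients of the cycle are multilinear functionals on a space `F` of functions of the vertices of the
universal cover (`CoF`); the cocycle is given by a finite sum of tensors of such functions.
-/

set_option autoImplicit false
set_option linter.unusedSectionVars false

open Finset Pointwise

namespace Pool.Agent.S9.M

open Pool.Agent.H19.Cub Pool.Agent.H77.SX Pool.Agent.H37.TM Pool.Agent.H37.MA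

variable {V X U Γ K F ι κ : Type} [DecidableEq V] [DecidableEq U] [Group Γ] [MulAction Γ U]
  {Q : CubeComplex V X} {x₀ : X} [MulAction Γ (Q.Cover x₀)] {bit : X → V → ZMod 2}
  [Field K] [Algebra (ZMod 2) K] {M B : Set (Finset U)} {n : ℕ} {ht : U → ℕ}
  [AddCommGroup F] [Module K F] [dι : DecidableEq ι] [Fintype κ]

/-- A space `F` of functions of the vertices of the cover: `ev v f` is the value of `f` at `v`, `rho γ` the
translation `(rho γ f) v = f (γ v)`, `one` the constant function. -/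
structure CoF (Γ : Type) [Group Γ] (K : Type) [Field K] (Q : CubeComplex V X) (x₀ : X)
    [MulAction Γ (Q.Cover x₀)] (F : Type) [AddCommGroup F] [Module K F] where
  /-- the constant function one -/
  one : F
  /-- the values -/
  ev : Q.Cover x₀ → F →ₗ[K] K
  /-- the translations -/
  rho : Γ → F →ₗ[K] F
  ev_one : ∀ v, ev v one = 1
  ev_smul : ∀ (γ : Γ) v f, ev (γ • v) f = ev v (rho γ f)
  rho_one : ∀ γ, rho γ one = one

/-- a cycle of degree `d` with values in the multilinear functionals on `F`, equivariant with the factor `c` -/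
structure MCyc [Fintype V] (C : CoF Γ K Q x₀ F) (c : Γ → K) (d : ℕ)
    (z : Q.Cover x₀ × Finset V → MultilinearMap K (fun _ : ι => F) K) : Prop where
  cyc : ∀ f : ι → F, Cyc Q x₀ d (fun e => z e f)
  smul : ∀ (γ : Γ) e (f : ι → F), z (γ • e) f = c γ * z e (fun s => C.rho γ (f s))

/-- the finite sum of tensors `∑ y k • ⨂ fs k s`, modulo the tensors with a constant factor, is invariant with
the factor `c ^ (-2)` -/
def YInv (C : CoF Γ K Q x₀ F) (c : Γ → K) (y : κ → K) (fs : κ → ι → F) : Prop :=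
  ∀ (γ : Γ) (Φ : MultilinearMap K (fun _ : ι => F) K), (∀ f i, f i = C.one → Φ f = 0) →
    (∑ k, y k * Φ (fun s => C.rho γ (fs k s))) * c γ ^ 2 = ∑ k, y k * Φ (fs k)

/-- the cochains `a A` of the letters `f` -/
noncomputable def amf (C : CoF Γ K Q x₀ F) (bit : X → V → ZMod 2) (d : ℕ)
    (Ψ : Q.Cover x₀ × Finset V → (Finset U × Finset U →₀ ZMod 2))
    (z : Q.Cover x₀ × Finset V → MultilinearMap K (fun _ : ι => F) K) (f : ι → F) (A : Finset ι)
    (t : Finset U) : K :=
  aab Q x₀ bit d Ψ (fun e => z e (fun s => if s ∈ A then f s else C.one)) t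

/-- the potentials of the letters `f` -/
def hmf (C : CoF Γ K Q x₀ F) (fv : U → Q.Cover x₀) (f : ι → F) (s : ι) (u : U) : K :=
  C.ev (fv u) (f s)

theorem upd_mem (one : F) (f : ι → F) {A : Finset ι} {i : ι} (hi : i ∈ A) (x : F) :
    (fun s => if s ∈ A then Function.update f i x s else one) =
      Function.update (fun s => if s ∈ A then f s else one) i x := by
  funext s
  rcases eq_or_ne s i with rfl | h
  · rw [if_pos hi, Function.update_self, Function.update_self]
  · rw [Function.update_of_ne h, Function.update_of_ne h]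

theorem upd_not_mem (one : F) (f : ι → F) {A : Finset ι} {i : ι} (hi : i ∉ A) (x : F) :
    (fun s => if s ∈ A then Function.update f i x s else one) =
      fun s => if s ∈ A then f s else one := by
  funext s
  rcases eq_or_ne s i with rfl | h
  · rw [if_neg hi, if_neg hi]
  · rw [Function.update_of_ne h]

/-- the letter `i` enters linearly -/
theorem linAt_upd (C : CoF Γ K Q x₀ F) {d : ℕ}
    {Ψ : Q.Cover x₀ × Finset V → (Finset U × Finset U →₀ ZMod 2)}
    (hfin : ∀ τ, {e | e ∈ Cell Q x₀ bit d ∧ al (Ψ e) τ ≠ 0}.Finite)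
    (z : Q.Cover x₀ × Finset V → MultilinearMap K (fun _ : ι => F) K) (fv : U → Q.Cover x₀)
    (f : ι → F) (i : ι) (x x' : F) (lam : K) (L : Finset ι) :
    LinAt i L lam (amf C bit d Ψ z (Function.update f i x))
      (amf C bit d Ψ z (Function.update f i x'))
      (amf C bit d Ψ z (Function.update f i (x + lam • x')))
      (hmf C fv (Function.update f i x)) (hmf C fv (Function.update f i x'))
      (hmf C fv (Function.update f i (x + lam • x'))) where
  a1 A _ hi := by
    constructor
    · funext t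
      unfold amf
      simp only [upd_not_mem C.one f hi]
    · funext t
      unfold amf
      simp only [upd_not_mem C.one f hi]
  a2 A _ hi t := by
    unfold amf
    simp only [upd_mem C.one f hi]
    rw [← aab_lin (hfin t)]
    congr 1
    funext e
    rw [MultilinearMap.map_update_add, MultilinearMap.map_update_smul, smul_eq_mul]
  h1 b _ hb := by
    constructor
    · funext u
      unfold hmf
      rw [Function.update_of_ne hb, Function.update_of_ne hb]
    · funext u
      unfold hmf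
      rw [Function.update_of_ne hb, Function.update_of_ne hb]
  h2 u := by
    unfold hmf
    rw [Function.update_self, Function.update_self, Function.update_self, map_add, map_smul,
      smul_eq_mul]

/-- `VT` as a multilinear functional -/
noncomputable def VTm (C : CoF Γ K Q x₀ F) {d : ℕ}
    {Ψ : Q.Cover x₀ × Finset V → (Finset U × Finset U →₀ ZMod 2)}
    (hfin : ∀ τ, {e | e ∈ Cell Q x₀ bit d ∧ al (Ψ e) τ ≠ 0}.Finite)
    (z : Q.Cover x₀ × Finset V → MultilinearMap K (fun _ : ι => F) K) (fv : U → Q.Cover x₀)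
    (ht : U → ℕ) (q : ℕ) {l : List ι} (hl : l.Nodup) (hall : ∀ i, i ∈ l) (r : Finset U) :
    MultilinearMap K (fun _ : ι => F) K where
  toFun f := VT ht (amf C bit d Ψ z f) (hmf C fv f) q l r
  map_update_add' := by
    intro inst f i x x'
    have he : inst = dι := Subsingleton.elim _ _
    subst he
    have h := VT_lin (q := q) (ht := ht) l hl (hall i)
      (linAt_upd C hfin z fv f i x x' 1 l.toFinset) r
    rw [one_smul, one_mul] at h
    exact h
  map_update_smul' := by
    intro inst f i c x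
    have he : inst = dι := Subsingleton.elim _ _
    subst he
    have h0 := VT_lin (q := q) (ht := ht) l hl (hall i)
      (linAt_upd C hfin z fv f i 0 0 1 l.toFinset) r
    rw [one_smul, one_mul, add_zero] at h0
    have h1 : VT ht (amf C bit d Ψ z (Function.update f i 0))
        (hmf C fv (Function.update f i 0)) q l r = 0 := left_eq_add.1 h0
    have h := VT_lin (q := q) (ht := ht) l hl (hall i)
      (linAt_upd C hfin z fv f i 0 x c l.toFinset) r
    rw [zero_add, h1, zero_add] at h
    exact h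

theorem VTm_one [CharP K 2] (C : CoF Γ K Q x₀ F) {d : ℕ}
    {Ψ : Q.Cover x₀ × Finset V → (Finset U × Finset U →₀ ZMod 2)}
    (hfin : ∀ τ, {e | e ∈ Cell Q x₀ bit d ∧ al (Ψ e) τ ≠ 0}.Finite)
    (z : Q.Cover x₀ × Finset V → MultilinearMap K (fun _ : ι => F) K) (fv : U → Q.Cover x₀)
    {q : ℕ} {l : List ι} (hl : l.Nodup) (hall : ∀ i, i ∈ l) {r : Finset U}
    (hr : Set.InjOn ht (r : Set U)) (f : ι → F) (i : ι) (hi : f i = C.one) :
    VTm C hfin z fv ht q hl hall r f = 0 := by
  show VT ht (amf C bit d Ψ z f) (hmf C fv f) q l r = 0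
  refine VT_one (c := i) (fun u => ?_) l hl (hall i) (fun A _ _ => ?_) r hr
  · unfold hmf
    rw [hi, C.ev_one]
  · funext t
    unfold amf
    congr 1
    funext e
    congr 1
    funext s
    rcases eq_or_ne s i with rfl | hs
    · rw [if_pos (mem_insert_self _ _), hi, ite_self]
    · by_cases hA : s ∈ A
      · rw [if_pos hA, if_pos (mem_insert_of_mem hA)]
      · rw [if_neg hA, if_neg fun h => (mem_insert.1 h).elim hs hA]

/-! ### scaling -/

theorem cup_scale {R S : Type} [CommRing R] [DecidableEq S] {j : ℕ} (lam : R)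
    (x y : Finset U → R) (s : Finset U) :
    cup ht j (fun t => lam * x t) (fun t => lam * y t) s = lam ^ 2 * cup ht j x y s := by
  unfold cup
  rw [mul_sum]
  exact sum_congr rfl fun B _ => by ring

theorem VT_scale {R S : Type} [CommRing R] [DecidableEq S] (lam : R)
    (a : Finset S → Finset U → R) (hp : S → U → R) (q : ℕ) : ∀ (l : List S) (s : Finset U),
    VT ht (fun A t => lam * a A t) hp q l s = lam ^ 2 * VT ht a hp q l s
  | [], _ => by
    show (0 : R) = lam ^ 2 * 0
    rw [mul_zero]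
  | b :: l, s => by
    show (if l.length < q then VV ht (fun A t => lam * a A t) (hp b) b l.toFinset (q - l.length) s
        else 0) + dcup ht (hp b) (VT ht (fun A t => lam * a A t) hp q l) s =
      lam ^ 2 * ((if l.length < q then VV ht a (hp b) b l.toFinset (q - l.length) s else 0) +
        dcup ht (hp b) (VT ht a hp q l) s)
    have h1 : VV ht (fun A t => lam * a A t) (hp b) b l.toFinset (q - l.length) s =
        lam ^ 2 * VV ht a (hp b) b l.toFinset (q - l.length) s := by
      unfold VV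
      rw [mul_sum]
      refine sum_congr rfl fun A _ => ?_
      rw [cup_scale (S := S), cup_scale (S := S)]
      ring
    have h2 : dcup ht (hp b) (VT ht (fun A t => lam * a A t) hp q l) s =
        lam ^ 2 * dcup ht (hp b) (VT ht a hp q l) s := by
      unfold dcup
      rw [mul_sum]
      refine sum_congr rfl fun v _ => ?_
      rw [VT_scale lam a hp q l]
      ring
    rw [h1, h2]
    split_ifs <;> ring

/-- the translate of the cochains of the letters -/
theorem amf_smul [Fintype V] [Fintype X] (C : CoF Γ K Q x₀ F) {c : Γ → K} {d : ℕ}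
    (hΓ : IsDeck Γ Q x₀) (hM : Psm M B n) (hA : MAct Γ M B n ht)
    {Ψ : Q.Cover x₀ × Finset V → (Finset U × Finset U →₀ ZMod 2)}
    (hΨ : IsPsi Γ Q x₀ bit M B n Ψ)
    {z : Q.Cover x₀ × Finset V → MultilinearMap K (fun _ : ι => F) K} (hz : MCyc C c d z)
    (γ : Γ) (f : ι → F) (A : Finset ι) (t : Finset U) :
    amf C bit d Ψ z f A (γ • t) = c γ * amf C bit d Ψ z (fun s => C.rho γ (f s)) A t := by
  unfold amf
  refine aab_smul hΓ hM hA hΨ (fun e => ?_) t
  rw [hz.smul]
  congr 2
  funext s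
  split_ifs
  · rfl
  · exact C.rho_one γ

/-- **The relation on the manifold** -/
theorem zerob [Fintype V] [Fintype X] [CharP K 2] (C : CoF Γ K Q x₀ F) {c : Γ → K}
    {d q : ℕ} (hbit : IsBit Q bit) (hΓ : IsDeck Γ Q x₀) (hM : Psm M B n)
    (hA : MAct Γ M B n ht) {Ψ : Q.Cover x₀ × Finset V → (Finset U × Finset U →₀ ZMod 2)}
    (hΨ : IsPsi Γ Q x₀ bit M B n Ψ) {fv : U → Q.Cover x₀} (hf : IsVMap Γ fv)
    {z : Q.Cover x₀ × Finset V → MultilinearMap K (fun _ : ι => F) K} (hz : MCyc C c (d + 1) z)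
    {y : κ → K} {fs : κ → ι → F} (hy : YInv C c y fs)
    {l : List ι} (hn : l.Nodup) (hall : ∀ i, i ∈ l) (hl : l.length = d + 1)
    (hq0 : 0 < q) (hqd : q ≤ d + 1) :
    osum Γ (fun τ : Finset U => open Classical in
      if τ ∈ M ∧ τ.card = n + 1 then
        ∑ k, y k * WW ht (amf C bit (d + 1) Ψ z (fs k)) (hmf C fv (fs k)) q l τ
      else 0) = 0 := by
  classical
  obtain ⟨hal1, hal2, hcol, hal4⟩ := al_fin (d := d + 1) hΓ hM hA hΨ
  set R : Finset U → K := fun r =>
    ∑ k, y k * VT ht (amf C bit (d + 1) Ψ z (fs k)) (hmf C fv (fs k)) q l r with hR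
  have hMg : ∀ (γ : Γ) (τ : Finset U), γ • τ ∈ M ↔ τ ∈ M := by
    intro γ τ
    refine ⟨fun h => ?_, hA.K_mem γ τ⟩
    have h1 := hA.K_mem γ⁻¹ _ h
    rwa [inv_smul_smul] at h1
  -- the values of `WW`
  have h1 : ∀ τ ∈ M, ∑ k, y k * WW ht (amf C bit (d + 1) Ψ z (fs k)) (hmf C fv (fs k)) q l τ =
      ∑ v ∈ τ, R (τ.erase v) := by
    intro τ hτ
    rw [hR]
    simp only
    rw [sum_comm]
    refine sum_congr rfl fun k _ => ?_
    rw [← mul_sum]
    congr 1
    refine WW_eq (fun A => aab_empty (d + 1) Ψ _) hn (by omega) (hA.ht_inj τ hτ) ?_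
    intro A r hr
    rcases r.eq_empty_or_nonempty with rfl | hne
    · exact sum_empty
    · exact aab_cob hbit hΓ hM hA hΨ (hz.cyc _) (hM.down τ hτ r hr hne)
  -- invariance
  have h2 : ∀ (γ : Γ) (r : Finset U), Set.InjOn ht (r : Set U) → R (γ • r) = R r := by
    intro γ r hr
    have h3 : ∀ f : ι → F, VT ht (amf C bit (d + 1) Ψ z f) (hmf C fv f) q l (γ • r) =
        c γ ^ 2 * VTm C hcol z fv ht q hn hall r (fun s => C.rho γ (f s)) := by
      intro f
      show _ = c γ ^ 2 * VT ht (amf C bit (d + 1) Ψ z (fun s => C.rho γ (f s)))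
        (hmf C fv (fun s => C.rho γ (f s))) q l r
      rw [← VT_scale]
      refine VT_smul (fun u => hA.ht_smul γ u) ?_ l hn r hr
      have e1 : ∀ A t, amf C bit (d + 1) Ψ z f A (γ • t) =
          c γ * amf C bit (d + 1) Ψ z (fun s => C.rho γ (f s)) A t := fun A t =>
        amf_smul C hΓ hM hA hΨ hz γ f A t
      have e2 : ∀ b u, hmf C fv f b (γ • u) = hmf C fv (fun s => C.rho γ (f s)) b u := by
        intro b u
        unfold hmf
        rw [hf γ u, C.ev_smul]
      refine ⟨fun ρ t t' => ?_, fun ρ b _ t t' u => ?_, fun b u u' => ?_⟩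
      · simp only [e1]
      · simp only [e1, e2]
      · rw [e2, e2]
    have h4 := hy γ (VTm C hcol z fv ht q hn hall r) (fun f i hi =>
      VTm_one C hcol z fv hn hall hr f i hi)
    rw [hR]
    simp only
    rw [sum_congr rfl fun k _ => by rw [h3]]
    refine Eq.trans ?_ h4
    rw [sum_mul]
    exact sum_congr rfl fun k _ => by ring
  -- support
  have h3 : ∀ r, R r ≠ 0 → ∃ r' ⊆ r, ∃ e ∈ Cell Q x₀ bit (d + 1), al (Ψ e) r' ≠ 0 := by
    intro r hr
    obtain ⟨k, -, hp⟩ := exists_ne_zero_of_sum_ne_zero hr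
    obtain ⟨r', h4, A, h5⟩ := VT_ne_zero l r (right_ne_zero_of_mul hp)
    exact ⟨r', h4, aab_ne_zero _ r' h5⟩
  -- double counting
  have h4 : osum Γ (fun τ : Finset U => ∑ᶠ r : Finset U,
      if τ ∈ M ∧ τ.card = n + 1 ∧ r ⊆ τ ∧ r.card = n then R r else 0) =
      osum Γ (fun r : Finset U => ∑ᶠ τ : Finset U,
      if τ ∈ M ∧ τ.card = n + 1 ∧ r ⊆ τ ∧ r.card = n then R r else 0) := by
    have hk : ∀ τ r : Finset U, (if τ ∈ M ∧ τ.card = n + 1 ∧ r ⊆ τ ∧ r.card = n then R r else 0) ≠
        0 → (τ ∈ M ∧ τ.card = n + 1 ∧ r ⊆ τ ∧ r.card = n) ∧ R r ≠ 0 := by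
      intro τ r h
      by_cases hc : τ ∈ M ∧ τ.card = n + 1 ∧ r ⊆ τ ∧ r.card = n
      · rw [if_pos hc] at h
        exact ⟨hc, h⟩
      · rw [if_neg hc] at h
        exact absurd rfl h
    refine osum_comm (Γ := Γ) (fun τ r : Finset U =>
      if τ ∈ M ∧ τ.card = n + 1 ∧ r ⊆ τ ∧ r.card = n then R r else 0) ?_ ?_ ?_ ?_ ?_
    · intro γ τ r
      show (if γ • τ ∈ M ∧ (γ • τ).card = n + 1 ∧ γ • r ⊆ γ • τ ∧ (γ • r).card = n
        then R (γ • r) else 0) = _
      have hiff : (γ • τ ∈ M ∧ (γ • τ).card = n + 1 ∧ γ • r ⊆ γ • τ ∧ (γ • r).card = n) ↔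
          (τ ∈ M ∧ τ.card = n + 1 ∧ r ⊆ τ ∧ r.card = n) := by
        rw [hMg, Finset.card_smul_finset, Finset.card_smul_finset,
          Finset.smul_finset_subset_smul_finset_iff]
      by_cases hc : τ ∈ M ∧ τ.card = n + 1 ∧ r ⊆ τ ∧ r.card = n
      · rw [if_pos hc, if_pos (hiff.2 hc)]
        exact h2 γ r ((hA.ht_inj τ hc.1).mono (by exact_mod_cast hc.2.2.1))
      · rw [if_neg hc, if_neg (fun h => hc (hiff.1 h))]
    · intro τ r h γ hγ
      exact hA.free γ τ (hk τ r h).1.1 hγ
    · intro τ r h γ hγ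
      obtain ⟨⟨h5, h6, h7, h8⟩, h9⟩ := hk τ r h
      obtain ⟨r', h10, e, he, h11⟩ := h3 r h9
      have hne : r.Nonempty := (hM.ne r' (hal1 e he r' h11).1).mono h10
      exact hA.free γ r (hM.down τ h5 r h7 hne) hγ
    · intro τ
      refine (τ.powerset.finite_toSet).subset fun r h => ?_
      exact mem_coe.2 (mem_powerset.2 (hk τ r h).1.2.2.1)
    · obtain ⟨F, hF⟩ := cu_fin (x₀ := x₀) hΓ
      have hloc : ∀ r : Finset U, {τ | τ ∈ M ∧ r ⊆ τ ∧ r ∈ M}.Finite := by
        intro r
        by_cases hr : r ∈ M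
        · exact (hM.locfin r hr).subset fun τ h => ⟨h.1, h.2.1⟩
        · exact Set.finite_empty.subset fun τ h => absurd h.2.2 hr
      refine ⟨F.biUnion fun e => (hal2 e).toFinset.biUnion fun r => (hloc r).toFinset,
        fun τ r h => ?_⟩
      obtain ⟨⟨h5, -, h7, -⟩, h9⟩ := hk τ r h
      obtain ⟨r', h10, e, he, h11⟩ := h3 r h9
      obtain ⟨γ, hγ⟩ := hF e
      refine ⟨γ, mem_biUnion.2 ⟨γ • e, hγ, mem_biUnion.2 ⟨γ • r', ?_, ?_⟩⟩⟩
      · rw [Set.Finite.mem_toFinset]
        show al (Ψ (γ • e)) (γ • r') ≠ 0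
        rwa [hal4 γ e he]
      · rw [Set.Finite.mem_toFinset]
        refine ⟨(hMg γ τ).2 h5, ?_, (hMg γ r').2 (hal1 e he r' h11).1⟩
        rw [Finset.smul_finset_subset_smul_finset_iff]
        exact h10.trans h7
  -- the left side
  have h5 : (fun τ : Finset U =>
      if τ ∈ M ∧ τ.card = n + 1 then
        ∑ k, y k * WW ht (amf C bit (d + 1) Ψ z (fs k)) (hmf C fv (fs k)) q l τ
      else 0) = fun τ : Finset U => ∑ᶠ r : Finset U,
      if τ ∈ M ∧ τ.card = n + 1 ∧ r ⊆ τ ∧ r.card = n then R r else 0 := by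
    funext τ
    by_cases hτ : τ ∈ M ∧ τ.card = n + 1
    · rw [if_pos hτ, h1 τ hτ.1]
      have h6 : ∀ r : Finset U, (if τ ∈ M ∧ τ.card = n + 1 ∧ r ⊆ τ ∧ r.card = n then R r else 0) =
          if r ∈ τ.powersetCard n then R r else 0 := by
        intro r
        have h7 : (τ ∈ M ∧ τ.card = n + 1 ∧ r ⊆ τ ∧ r.card = n) ↔ r ∈ τ.powersetCard n := by
          rw [mem_powersetCard]
          exact ⟨fun h => h.2.2, fun h => ⟨hτ.1, hτ.2, h⟩⟩
        simp only [h7]
      rw [finsum_congr h6, finsum_eq_sum_of_support_subset (s := τ.powersetCard n) _ (by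
        intro r hr
        rw [Function.mem_support] at hr
        by_contra h8
        exact hr (if_neg h8)), sum_congr rfl fun r hr => if_pos hr]
      rw [powersetCard_image_erase hτ.2, sum_image (Finset.erase_injOn τ)]
    · rw [if_neg hτ]
      exact (finsum_eq_zero_of_forall_eq_zero fun r => if_neg fun h => hτ ⟨h.1, h.2.1⟩).symm
  -- the right side
  have h6 : (fun r : Finset U => ∑ᶠ τ : Finset U,
      if τ ∈ M ∧ τ.card = n + 1 ∧ r ⊆ τ ∧ r.card = n then R r else 0) = fun _ => 0 := by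
    funext r
    by_cases hr : R r = 0
    · refine finsum_eq_zero_of_forall_eq_zero fun τ => ?_
      rw [hr, ite_self]
    · obtain ⟨r', h10, e, he, h11⟩ := h3 r hr
      obtain ⟨h12, h13, -⟩ := hal1 e he r' h11
      by_cases hrM : r ∈ M ∧ r.card = n
      · have hB : r ∉ B := fun h => h13 (hM.bd_down r h r' h10 (hM.ne r' h12))
        have h14 : ∀ τ : Finset U,
            (if τ ∈ M ∧ τ.card = n + 1 ∧ r ⊆ τ ∧ r.card = n then R r else 0) =
            if τ ∈ cofs M r (n + 1) then R r else 0 := by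
          intro τ
          have h15 : (τ ∈ M ∧ τ.card = n + 1 ∧ r ⊆ τ ∧ r.card = n) ↔ τ ∈ cofs M r (n + 1) := by
            rw [mem_cofsP hM hrM.1]
            exact ⟨fun h => ⟨h.1, h.2.2.1, h.2.1⟩, fun h => ⟨h.1, h.2.2, h.2.1, hrM.2⟩⟩
          simp only [h15]
        rw [finsum_congr h14, finsum_eq_sum_of_support_subset (s := cofs M r (n + 1)) _ (by
          intro τ hτ
          rw [Function.mem_support] at hτ
          by_contra h8
          exact hτ (if_neg h8)), sum_congr rfl fun τ hτ => if_pos hτ, sum_const,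
          ← Nat.cast_smul_eq_nsmul (ZMod 2), even_cofs hM hrM.1 hB hrM.2, zero_smul]
      · refine finsum_eq_zero_of_forall_eq_zero fun τ => if_neg fun h => hrM ⟨?_, h.2.2.2⟩
        exact hM.down τ h.1 r h.2.2.1 ((hM.ne r' h12).mono h10)
  have h7 : (fun τ : Finset U => open Classical in
      if τ ∈ M ∧ τ.card = n + 1 then
        ∑ k, y k * WW ht (amf C bit (d + 1) Ψ z (fs k)) (hmf C fv (fs k)) q l τ
      else 0) = fun τ : Finset U => ∑ᶠ r : Finset U,
      if τ ∈ M ∧ τ.card = n + 1 ∧ r ⊆ τ ∧ r.card = n then R r else 0 := by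
    rw [← h5]
  rw [h7, h4, h6]
  unfold osum
  exact finsum_zero

end Pool.Agent.S9.M
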